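import Pool.Agent.H74.TF.Stm

/-!
# Project TF, part ALG
-/

set_option autoImplicit false

namespace Pool.Agent.H74.TF

open Finset Equiv

namespace AlgP

variable {m k : ℕ}

theorem dl_inl (i : Fin m) (b : Bool) : dl m k (Sum.inl (i, b)) = Sum.inl (i, !b) := rfl

theorem dl_inr (r : Fin k) : dl m k (Sum.inr r) = Sum.inr r := rfl

theorem dl_dl (p : Pt m k) : dl m k (dl m k p) = p := by
  rcases p with ⟨i, b⟩ | r
  · rw [dl_inl, dl_inl, Bool.not_not]
  · rfl

theorem dl_mul_dl : dl m k * dl m k = 1 := by
  ext p : 1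
  exact dl_dl p

theorem iv_iv (g : Perm (Pt m k)) (p : Pt m k) : iv g (iv g p) = p := by
  have : iv g * iv g = 1 := by
    unfold iv
    calc g * dl m k * g⁻¹ * (g * dl m k * g⁻¹) = g * (dl m k * dl m k) * g⁻¹ := by group
      _ = 1 := by rw [dl_mul_dl]; group
  rw [← Perm.mul_apply, this]
  rfl

theorem iv_swap (g : Perm (Pt m k)) (x y p : Pt m k) :
    iv (swap y x * g) p = swap y x (iv g (swap y x p)) := by
  unfold iv
  simp [mul_assoc, mul_inv_rev]

theorem mem_NF (g : Perm (Pt m k)) (i : Fin m) (b : Bool) :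
    i ∈ NF g ↔ iv g (Sum.inl (i, b)) ≠ Sum.inl (i, !b) := by
  unfold NF
  rw [mem_filter]
  simp only [mem_univ, true_and]
  cases b
  · rfl
  · constructor
    · intro h h1
      apply h
      have h2 := congrArg (iv g) h1
      rw [iv_iv] at h2
      exact h2.symm
    · intro h h1
      apply h
      have h2 := congrArg (iv g) h1
      rw [iv_iv] at h2
      exact h2.symm

theorem rk_inj : Function.Injective (rk : Pt m k → ℕ) := by
  rintro (⟨i, b⟩ | r) (⟨j, c⟩ | s) h
  · have h' : 2 * (i : ℕ) + b.toNat = 2 * (j : ℕ) + c.toNat := h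
    have hb := Bool.toNat_lt b
    have hc := Bool.toNat_lt c
    have h1 : (i : ℕ) = j := by omega
    have h2 : b.toNat = c.toNat := by omega
    have h3 : i = j := Fin.ext h1
    have h4 : b = c := by
      cases b <;> cases c <;> simp at h2 <;> rfl
    rw [h3, h4]
  · exfalso
    have h' : 2 * (i : ℕ) + b.toNat = 2 * m + (s : ℕ) := h
    have hb := Bool.toNat_lt b
    have := i.2
    omega
  · exfalso
    have h' : 2 * m + (r : ℕ) = 2 * (j : ℕ) + c.toNat := h
    have hb := Bool.toNat_lt c
    have := j.2
    omega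
  · have h' : 2 * m + (r : ℕ) = 2 * m + (s : ℕ) := h
    have : r = s := Fin.ext (by omega)
    rw [this]

theorem rk_inl (i : Fin m) (b : Bool) : rk (Sum.inl (i, b) : Pt m k) = 2 * (i : ℕ) + b.toNat := rfl
theorem rk_inr (r : Fin k) : rk (Sum.inr r : Pt m k) = 2 * m + (r : ℕ) := rfl
theorem ctr_inl (i : Fin m) : ctr (k := k) (Sum.inl i) = Sum.inl (i, false) := rfl
theorem ctr_inr (r : Fin k) : ctr (m := m) (Sum.inr r) = Sum.inr r := rfl

theorem val_cons (R : Type) [CommRing R] (c : Fin m ⊕ Fin k) (cs : List (Fin m ⊕ Fin k))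
    (g : Perm (Pt m k)) :
    val R (c :: cs) g = ∑ y : Pt m k with rk y < rk (ctr c), val R cs (swap y (ctr c) * g) := rfl

theorem val_nil (R : Type) [CommRing R] (g : Perm (Pt m k)) : val R [] g = v0 R m k g := rfl

theorem iv_of_comm {g : Perm (Pt m k)} (h : g * dl m k = dl m k * g) : iv g = dl m k := by
  unfold iv
  rw [h]
  group

theorem comm_of_iv {g : Perm (Pt m k)} (h : iv g = dl m k) : g * dl m k = dl m k * g := by
  exact mul_inv_eq_iff_eq_mul.1 h

theorem iv_of_val_nil (h1 : C_V0) {R : Type} [CommRing R] {g : Perm (Pt m k)}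
    (h : val R [] g ≠ 0) : iv g = dl m k := by
  rw [val_nil] at h
  have h2 := (h1.2.2 R m k).2.1 g
  have h3 : ∃ a b, wr a ∧ g = iot a b := by
    by_contra h4
    exact h (h2 h4)
  exact iv_of_comm ((h1.2.1 m k g).1 h3)

theorem exists_of_val_cons {R : Type} [CommRing R] {c : Fin m ⊕ Fin k}
    {cs : List (Fin m ⊕ Fin k)} {g : Perm (Pt m k)} (h : val R (c :: cs) g ≠ 0) :
    ∃ y, rk y < rk (ctr c) ∧ val R cs (swap y (ctr c) * g) ≠ 0 := by
  rw [val_cons] at h
  obtain ⟨y, hy, hy'⟩ := Finset.exists_ne_zero_of_sum_ne_zero h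
  exact ⟨y, (mem_filter.1 hy).2, hy'⟩

/-- Points above all centres. -/
theorem ut (h1 : C_V0) {R : Type} [CommRing R] (B : ℕ) :
    ∀ (cs : List (Fin m ⊕ Fin k)) (g : Perm (Pt m k)), (∀ c ∈ cs, rk (ctr c) ≤ B) →
      val R cs g ≠ 0 → ∀ p, B < rk p → B < rk (dl m k p) → iv g p = dl m k p := by
  intro cs
  induction cs with
  | nil =>
    intro g _ hv p _ _
    rw [iv_of_val_nil h1 hv]
  | cons c cs ih =>
    intro g hB hv p hp hp'
    obtain ⟨y, hy, hy'⟩ := exists_of_val_cons hv
    have h2 := ih (swap y (ctr c) * g) (fun c' hc' => hB c' (List.mem_cons_of_mem _ hc')) hy' p hp hp'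
    have hc := hB c List.mem_cons_self
    have hne : ∀ q, B < rk q → q ≠ y ∧ q ≠ ctr c := by
      intro q hq
      constructor
      · intro h
        rw [h] at hq
        omega
      · intro h
        rw [h] at hq
        omega
    rw [iv_swap, swap_apply_of_ne_of_ne (hne p hp).1 (hne p hp).2] at h2
    have h3 := congrArg (swap y (ctr c)) h2
    rw [swap_apply_of_ne_of_ne (hne _ hp').1 (hne _ hp').2] at h3
    rw [← h3]
    simp

theorem wt_nil : wt ([] : List (Fin m ⊕ Fin k)) = 0 := by
  classical
  unfold wt pc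
  simp

theorem wt_cons_inr (r : Fin k) (cs : List (Fin m ⊕ Fin k)) :
    wt (Sum.inr r :: cs) = wt cs + 1 := by
  classical
  have : pc (Sum.inr r :: cs) = pc cs := by
    unfold pc
    ext i
    simp
  unfold wt
  rw [this, List.length_cons]
  omega

theorem wt_cons_inl_mem (i : Fin m) (cs : List (Fin m ⊕ Fin k)) (h : Sum.inl i ∈ cs) :
    wt (Sum.inl i :: cs) = wt cs + 1 := by
  classical
  have : pc (Sum.inl i :: cs) = pc cs := by
    unfold pc
    ext j
    simp only [List.mem_cons, Sum.inl.injEq, mem_filter, mem_univ, true_and]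
    constructor
    · rintro (rfl | h')
      · exact h
      · exact h'
    · exact Or.inr
  unfold wt
  rw [this, List.length_cons]
  omega

theorem wt_cons_inl_not_mem (i : Fin m) (cs : List (Fin m ⊕ Fin k)) (h : Sum.inl i ∉ cs) :
    wt (Sum.inl i :: cs) = wt cs + 2 := by
  classical
  have : pc (Sum.inl i :: cs) = insert i (pc cs) := by
    unfold pc
    ext j
    simp only [List.mem_cons, Sum.inl.injEq, mem_filter, mem_univ, true_and, mem_insert]
  have h2 : i ∉ pc cs := by
    unfold pc
    simpa using h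
  unfold wt
  rw [this, List.length_cons, card_insert_of_notMem h2]
  omega

theorem mem_pc (cs : List (Fin m ⊕ Fin k)) (i : Fin m) : i ∈ pc cs ↔ Sum.inl i ∈ cs := by
  classical
  unfold pc
  simp

theorem srt_le {c : Fin m ⊕ Fin k} {cs : List (Fin m ⊕ Fin k)} (h : Srt (c :: cs)) :
    ∀ c' ∈ c :: cs, rk (ctr c') ≤ rk (ctr c) := by
  intro c' hc'
  rcases List.mem_cons.1 hc' with rfl | hc'
  · exact le_rfl
  · exact (List.pairwise_cons.1 h).1 c' hc'

theorem srt_tail {c : Fin m ⊕ Fin k} {cs : List (Fin m ⊕ Fin k)} (h : Srt (c :: cs)) :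
    Srt cs := (List.pairwise_cons.1 h).2

/-- The head is forced. -/
theorem hf (h1 : C_V0) (h2 : C_LOW) (h3 : C_STP) {R : Type} [CommRing R] {c : Fin m ⊕ Fin k}
    {cs : List (Fin m ⊕ Fin k)} {g : Perm (Pt m k)} (hs : Srt (c :: cs))
    (hw : wt (c :: cs) = (NF g).card) (hv : val R (c :: cs) g ≠ 0) :
    (∀ r, c = Sum.inr r → iv g (Sum.inr r) ≠ Sum.inr r ∧
      ∀ s, r < s → iv g (Sum.inr s) = Sum.inr s) ∧
    (∀ i, c = Sum.inl i → (∀ s, iv g (Sum.inr s) = Sum.inr s) ∧ i ∈ NF g ∧
      ∀ j ∈ NF g, j ≤ i) := by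
  obtain ⟨y, hy, hy'⟩ := exists_of_val_cons hv
  have h4 := (h3 R m k c cs g hs hw y hy hy').1
  have hut := ut h1 (rk (ctr c)) (c :: cs) g (srt_le hs) hv
  constructor
  · rintro r rfl
    constructor
    · intro h
      rw [ctr_inr, h, dl_inr] at h4
      rw [h4] at hy
      exact lt_irrefl _ hy
    · intro s hrs
      have h5 : rk (ctr (m := m) (Sum.inr r)) < rk (Sum.inr s : Pt m k) := by
        rw [ctr_inr, rk_inr, rk_inr]
        have : (r : ℕ) < s := hrs
        omega
      exact hut (Sum.inr s) h5 h5
  · rintro i rfl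
    have hi := i.2
    refine ⟨?_, ?_, ?_⟩
    · intro s
      have h5 : rk (ctr (k := k) (Sum.inl i)) < rk (Sum.inr s : Pt m k) := by
        rw [ctr_inl, rk_inr, rk_inl]
        simp only [Bool.toNat_false]
        omega
      exact hut (Sum.inr s) h5 h5
    · apply (h2 R m k _ g hv).2 hw.symm
      rw [mem_pc]
      exact List.mem_cons_self
    · intro j hj
      by_contra h6
      have h7 : (i : ℕ) < j := by
        have : i < j := lt_of_not_ge h6
        exact this
      rw [mem_NF g j false] at hj
      apply hj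
      apply hut (Sum.inl (j, false))
      · rw [ctr_inl, rk_inl, rk_inl]
        simp only [Bool.toNat_false]
        omega
      · rw [dl_inl, ctr_inl, rk_inl, rk_inl]
        simp only [Bool.toNat_false, Bool.not_false, Bool.toNat_true]
        omega

theorem unique (h1 : C_V0) (h2 : C_LOW) (h3 : C_STP) {R : Type} [CommRing R] :
    ∀ (cs cs' : List (Fin m ⊕ Fin k)) (g : Perm (Pt m k)), Srt cs → Srt cs' →
      wt cs = (NF g).card → wt cs' = (NF g).card → val R cs g ≠ 0 → val R cs' g ≠ 0 →
      cs = cs' := by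
  have hpos : ∀ (c : Fin m ⊕ Fin k) (cs : List (Fin m ⊕ Fin k)), wt (c :: cs) ≠ 0 := by
    intro c cs
    unfold wt
    rw [List.length_cons]
    omega
  intro cs
  induction cs with
  | nil =>
    intro cs' g _ _ hw hw' _ _
    rcases cs' with _ | ⟨c', cs'⟩
    · rfl
    · exfalso
      rw [← hw, wt_nil] at hw'
      exact hpos _ _ hw'
  | cons c cs ih =>
    intro cs' g hs hs' hw hw' hv hv'
    rcases cs' with _ | ⟨c', cs'⟩
    · exfalso
      rw [← hw', wt_nil] at hw
      exact hpos _ _ hw
    · have ha := hf h1 h2 h3 hs hw hv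
      have hb := hf h1 h2 h3 hs' hw' hv'
      have hcc : c = c' := by
        rcases c with i | r
        · have ha' := ha.2 i rfl
          rcases c' with i' | r'
          · have hb' := hb.2 i' rfl
            rw [le_antisymm (hb'.2.2 i ha'.2.1) (ha'.2.2 i' hb'.2.1)]
          · exact absurd (ha'.1 r') (hb.1 r' rfl).1
        · have ha' := ha.1 r rfl
          rcases c' with i' | r'
          · exact absurd ((hb.2 i' rfl).1 r) ha'.1
          · have hb' := hb.1 r' rfl
            rcases lt_trichotomy r r' with h | h | h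
            · exact absurd (ha'.2 r' h) hb'.1
            · rw [h]
            · exact absurd (hb'.2 r h) ha'.1
      subst hcc
      obtain ⟨y, hy, hy'⟩ := exists_of_val_cons hv
      obtain ⟨z, hz, hz'⟩ := exists_of_val_cons hv'
      have h4 := h3 R m k c cs g hs hw y hy hy'
      have h5 := h3 R m k c cs' g hs' hw' z hz hz'
      have hyz : y = z := h4.1.trans h5.1.symm
      subst hyz
      rw [ih cs' _ (srt_tail hs) (srt_tail hs') h4.2.symm h5.2.symm hy' hz']

/-- Different single points can be separated. -/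
def NB (g : Perm (Pt m k)) : Prop :=
  ∀ r s : Fin k, r ≠ s → ∃ S : Set (Pt m k), (∀ p ∈ S, dl m k p ∈ S) ∧ (∀ p ∈ S, iv g p ∈ S) ∧
    Sum.inr r ∈ S ∧ Sum.inr s ∉ S

theorem nb_step {g : Perm (Pt m k)} (h : NB g) (c : Pt m k) :
    NB (swap (dl m k (iv g c)) c * g) := by
  intro r s hrs
  obtain ⟨S, h1, h2, h3, h4⟩ := h r s hrs
  refine ⟨S, h1, ?_, h3, h4⟩
  have h5 : c ∈ S ↔ dl m k (iv g c) ∈ S := by
    constructor
    · intro hc
      exact h1 _ (h2 _ hc)
    · intro hc
      have := h2 _ (h1 _ hc)
      rwa [dl_dl, iv_iv] at this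
  have h6 : ∀ p ∈ S, swap (dl m k (iv g c)) c p ∈ S := by
    intro p hp
    rw [swap_apply_def]
    split_ifs with ha hb
    · rw [h5, ← ha]
      exact hp
    · rw [← h5, ← hb]
      exact hp
    · exact hp
  intro p hp
  rw [iv_swap]
  exact h6 _ (h2 _ (h6 _ hp))

theorem dl_fix {p : Pt m k} (h : dl m k p = p) : ∃ r, p = Sum.inr r := by
  rcases p with ⟨i, b⟩ | r
  · exfalso
    rw [dl_inl] at h
    cases b <;> simp at h
  · exact ⟨r, rfl⟩

theorem iot_inr (a : Perm (Fin m × Bool)) (b : Perm (Fin k)) (r : Fin k) :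
    iot a b (Sum.inr r) = Sum.inr (b r) := rfl

theorem orbit_zr (g : Perm (Pt m k)) (r : Fin k) (a : ℤ) :
    dl m k (((dl m k * iv g) ^ a) (Sum.inr r)) = ((dl m k * iv g) ^ (-a)) (Sum.inr r) ∧
    iv g (((dl m k * iv g) ^ a) (Sum.inr r)) = ((dl m k * iv g) ^ (-a - 1)) (Sum.inr r) := by
  set z := dl m k * iv g with hz
  have hdd : dl m k * dl m k = 1 := dl_mul_dl
  have hii : iv g * iv g = 1 := by
    ext p : 1
    exact iv_iv g p
  have hdinv : (dl m k)⁻¹ = dl m k := inv_eq_of_mul_eq_one_left hdd
  have hiinv : (iv g)⁻¹ = iv g := inv_eq_of_mul_eq_one_left hii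
  have hzinv : z⁻¹ = iv g * dl m k := by
    rw [hz, mul_inv_rev, hdinv, hiinv]
  have hdz : ∀ t : ℤ, dl m k * z ^ t = z ^ (-t) * dl m k := by
    intro t
    have h2 : dl m k * z * (dl m k)⁻¹ = z⁻¹ := by
      rw [hzinv, hz, hdinv, ← mul_assoc, hdd, one_mul]
    have h3 : dl m k * z ^ t * (dl m k)⁻¹ = z ^ (-t) := by
      rw [← conj_zpow, h2, inv_zpow, zpow_neg]
    rw [← h3]
    group
  have hdr : dl m k (Sum.inr r) = Sum.inr r := dl_inr r
  have hdzr : ∀ a : ℤ, dl m k ((z ^ a) (Sum.inr r)) = (z ^ (-a)) (Sum.inr r) := by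
    intro a
    rw [← Perm.mul_apply, hdz, Perm.mul_apply, hdr]
  refine ⟨hdzr a, ?_⟩
  have : iv g = dl m k * z := by
    rw [hz, ← mul_assoc, hdd, one_mul]
  rw [this, Perm.mul_apply, ← Perm.mul_apply z, ← zpow_one_add, hdzr]
  congr 2
  ring

/-- If two single points are connected then `g` is bad. -/
theorem bad_of (h1 : C_V0) (g : Perm (Pt m k)) (r s : Fin k) (hrs : r ≠ s)
    (h : (dl m k * iv g).SameCycle (Sum.inr r) (Sum.inr s)) : Bad g := by
  set z := dl m k * iv g with hz
  have hdd : dl m k * dl m k = 1 := dl_mul_dl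
  have hii : iv g * iv g = 1 := by
    ext p : 1
    exact iv_iv g p
  obtain ⟨t, ht⟩ := h
  have hdzr : ∀ a : ℤ, dl m k ((z ^ a) (Sum.inr r)) = (z ^ (-a)) (Sum.inr r) :=
    fun a => (orbit_zr g r a).1
  have hizr : ∀ a : ℤ, iv g ((z ^ a) (Sum.inr r)) = (z ^ (-a - 1)) (Sum.inr r) :=
    fun a => (orbit_zr g r a).2
  have h2t : (z ^ (2 * t)) (Sum.inr r) = Sum.inr r := by
    have h4 := hdzr t
    rw [ht, dl_inr, ← ht] at h4
    have h5 : (z ^ t) ((z ^ t) (Sum.inr r)) = Sum.inr r := by
      rw [h4, ← Perm.mul_apply, ← zpow_add]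
      simp
    rw [two_mul, zpow_add, Perm.mul_apply, h5]
  -- the period
  have hmul : ∀ (x : Pt m k) (a : ℤ) (n : ℤ), (z ^ a) x = x → (z ^ (n * a)) x = x := by
    intro x a n hx
    rw [mul_comm, zpow_mul]
    exact Perm.zpow_apply_eq_self_of_apply_eq_self hx n
  -- the reflection
  set w := z.cycleOf (Sum.inr r) ^ t with hw
  have hwin : ∀ a : ℤ, w ((z ^ a) (Sum.inr r)) = (z ^ (a + t)) (Sum.inr r) := by
    intro a
    rw [hw]
    have h6 : (Perm.cycleOf z (Sum.inr r) ^ t) ((z ^ a) (Sum.inr r)) =
        (z ^ t) ((z ^ a) (Sum.inr r)) := by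
      have h7 : z.SameCycle (Sum.inr r) ((z ^ a) (Sum.inr r)) := ⟨a, rfl⟩
      have h8 : Perm.cycleOf z (Sum.inr r) = Perm.cycleOf z ((z ^ a) (Sum.inr r)) :=
        h7.cycleOf_eq
      rw [h8, Perm.cycleOf_zpow_apply_self]
    rw [h6, ← Perm.mul_apply, ← zpow_add, add_comm]
  have hwout : ∀ x, ¬ z.SameCycle (Sum.inr r) x → w x = x := by
    intro x hx
    rw [hw]
    apply Perm.zpow_apply_eq_self_of_apply_eq_self
    exact Perm.cycleOf_apply_of_not_sameCycle hx
  have hzz : ∀ a : ℤ, (z ^ (a + 2 * t)) (Sum.inr r) = (z ^ a) (Sum.inr r) := by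
    intro a
    rw [zpow_add, Perm.mul_apply, h2t]
  have hsame_d : ∀ x, z.SameCycle (Sum.inr r) x → z.SameCycle (Sum.inr r) (dl m k x) := by
    rintro x ⟨a, rfl⟩
    rw [hdzr]
    exact ⟨_, rfl⟩
  have hsame_i : ∀ x, z.SameCycle (Sum.inr r) x → z.SameCycle (Sum.inr r) (iv g x) := by
    rintro x ⟨a, rfl⟩
    rw [hizr]
    exact ⟨_, rfl⟩
  have hwd : w * dl m k = dl m k * w := by
    ext x : 1
    rw [Perm.mul_apply, Perm.mul_apply]
    by_cases hx : z.SameCycle (Sum.inr r) x
    · obtain ⟨a, rfl⟩ := hx
      rw [hdzr, hwin, hwin, hdzr, ← hzz (-(a + t))]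
      congr 2
      ring
    · have hx' : ¬ z.SameCycle (Sum.inr r) (dl m k x) := by
        intro h9
        have := hsame_d _ h9
        rw [dl_dl] at this
        exact hx this
      rw [hwout _ hx, hwout _ hx']
  have hwi : w * iv g = iv g * w := by
    ext x : 1
    rw [Perm.mul_apply, Perm.mul_apply]
    by_cases hx : z.SameCycle (Sum.inr r) x
    · obtain ⟨a, rfl⟩ := hx
      rw [hizr, hwin, hwin, hizr, ← hzz (-(a + t) - 1)]
      congr 2
      ring
    · have hx' : ¬ z.SameCycle (Sum.inr r) (iv g x) := by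
        intro h9
        have := hsame_i _ h9
        rw [iv_iv] at this
        exact hx this
      rw [hwout _ hx, hwout _ hx']
  -- the period
  obtain ⟨n, hn⟩ : ∃ n : ℤ, ∀ a : ℤ, (z ^ a) (Sum.inr r) = Sum.inr r ↔ n ∣ a := by
    let A : AddSubgroup ℤ :=
      { carrier := {a | (z ^ a) (Sum.inr r) = Sum.inr r}
        zero_mem' := by simp
        add_mem' := by
          intro a b ha hb
          show (z ^ (a + b)) (Sum.inr r) = Sum.inr r
          rw [zpow_add, Perm.mul_apply]
          have hb' : (z ^ b) (Sum.inr r) = Sum.inr r := hb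
          have ha' : (z ^ a) (Sum.inr r) = Sum.inr r := ha
          rw [hb', ha']
        neg_mem' := by
          intro a ha
          show (z ^ (-a)) (Sum.inr r) = Sum.inr r
          have ha' : (z ^ a) (Sum.inr r) = Sum.inr r := ha
          rw [zpow_neg, Perm.inv_eq_iff_eq, ha'] }
    obtain ⟨n, hn⟩ := Int.subgroup_cyclic A
    refine ⟨n, fun a => ?_⟩
    have h9 : (z ^ a) (Sum.inr r) = Sum.inr r ↔ a ∈ A := Iff.rfl
    rw [h9, hn, AddSubgroup.mem_closure_singleton]
    constructor
    · rintro ⟨c, hc⟩
      exact ⟨c, by rw [← hc, smul_eq_mul, mul_comm]⟩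
    · rintro ⟨c, hc⟩
      exact ⟨c, by rw [hc, smul_eq_mul, mul_comm]⟩
  have htne : ¬ n ∣ t := by
    rw [← hn, ht]
    intro h9
    exact hrs (Sum.inr_injective h9).symm
  have hn2t : n ∣ 2 * t := (hn _).1 h2t
  have hcancel : ∀ a b : ℤ, (z ^ a) (Sum.inr r) = (z ^ b) (Sum.inr r) → n ∣ a - b := by
    intro a b hab
    rw [← hn, sub_eq_neg_add, zpow_add, Perm.mul_apply, hab, ← Perm.mul_apply, ← zpow_add]
    simp
  have hcancel' : ∀ a b : ℤ, n ∣ a - b → (z ^ a) (Sum.inr r) = (z ^ b) (Sum.inr r) := by
    intro a b hab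
    rw [← hn] at hab
    have : a = b + (a - b) := by ring
    rw [this, zpow_add, Perm.mul_apply, hab]
  have hkey : ∀ a : ℤ, n ∣ 2 * a → n ∣ a ∨ n ∣ a - t := by
    intro a ha
    by_contra hno
    rw [not_or] at hno
    obtain ⟨c, hc⟩ := ha
    obtain ⟨d, hd⟩ := hn2t
    rcases Int.even_or_odd c with ⟨c', hc'⟩ | ⟨c', hc'⟩
    · apply hno.1
      refine ⟨c', ?_⟩
      subst hc'
      linarith
    · rcases Int.even_or_odd d with ⟨d', hd'⟩ | ⟨d', hd'⟩
      · apply htne
        refine ⟨d', ?_⟩
        subst hd'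
        linarith
      · apply hno.2
        refine ⟨c' - d', ?_⟩
        subst hc' hd'
        linarith
  have hodd : ∀ a : ℤ, ¬ n ∣ 2 * a + 1 := by
    intro a ⟨c, hc⟩
    obtain ⟨d, hd⟩ := hn2t
    rcases Int.even_or_odd n with ⟨n', hn'⟩ | ⟨n', hn'⟩
    · subst hn'
      have : 2 * (n' * c - a) = 1 := by linarith
      omega
    · apply htne
      have h10 : IsCoprime n 2 := ⟨1, -n', by rw [hn']; ring⟩
      exact h10.dvd_of_dvd_mul_left ⟨d, hd⟩
  -- `w` on the single points
  have hwq : ∀ u, w (Sum.inr u) = Sum.inr (swap r s u) := by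
    intro u
    have hr0 : w (Sum.inr r) = Sum.inr s := by
      have := hwin 0
      simpa [ht] using this
    have hs0 : w (Sum.inr s) = Sum.inr r := by
      rw [← ht, hwin, ← two_mul, h2t]
    by_cases hx : z.SameCycle (Sum.inr r) (Sum.inr u)
    · obtain ⟨a, ha⟩ := hx
      have h11 := hdzr a
      rw [ha, dl_inr, ← ha] at h11
      have h12 := hcancel _ _ h11
      have h13 : n ∣ 2 * a := by
        have : a - -a = 2 * a := by ring
        rwa [this] at h12
      rcases hkey a h13 with h14 | h14
      · rw [← hn, ha] at h14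
        have h15 := Sum.inr_injective h14
        rw [h15, hr0, swap_apply_left]
      · have h15 := hcancel' _ _ h14
        rw [ha, ht] at h15
        have h16 := Sum.inr_injective h15
        rw [h16, hs0, swap_apply_right]
    · rw [hwout _ hx]
      have h17 : u ≠ r := by
        rintro rfl
        exact hx ⟨0, by simp⟩
      have h18 : u ≠ s := by
        rintro rfl
        exact hx ⟨t, ht⟩
      rw [swap_apply_of_ne_of_ne h17 h18]
  have hwf : ∀ x, iv g x = x → w x = x := by
    intro x hx
    apply hwout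
    rintro ⟨a, rfl⟩
    rw [hizr] at hx
    have h19 := hcancel _ _ hx
    apply hodd a
    have : 2 * a + 1 = -(-a - 1 - a) := by ring
    rw [this, dvd_neg]
    exact h19
  -- conclusion
  obtain ⟨a, b, hwa, hab⟩ := (h1.2.1 m k w).2 hwd
  have hwinv : w⁻¹ * iv g = iv g * w⁻¹ := by
    calc w⁻¹ * iv g = w⁻¹ * (iv g * w) * w⁻¹ := by group
      _ = w⁻¹ * (w * iv g) * w⁻¹ := by rw [hwi]
      _ = iv g * w⁻¹ := by group
  have hcm : g⁻¹ * w⁻¹ * g * dl m k = dl m k * (g⁻¹ * w⁻¹ * g) := by
    calc g⁻¹ * w⁻¹ * g * dl m k = g⁻¹ * (w⁻¹ * iv g) * g := by unfold iv; group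
      _ = g⁻¹ * (iv g * w⁻¹) * g := by rw [hwinv]
      _ = dl m k * (g⁻¹ * w⁻¹ * g) := by unfold iv; group
  obtain ⟨a', b', hwa', hab'⟩ := (h1.2.1 m k _).2 hcm
  have hb : b = swap r s := by
    ext u : 1
    have := hwq u
    rw [hab, iot_inr] at this
    exact Sum.inr_injective this
  have hb' : b' = 1 := by
    ext u : 1
    have h20 : (g⁻¹ * w⁻¹ * g) (Sum.inr u) = Sum.inr u := by
      rw [Perm.mul_apply, Perm.mul_apply, Perm.inv_eq_iff_eq, Perm.inv_eq_iff_eq]
      symm
      apply hwf
      unfold iv
      simp [dl_inr]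
    rw [hab', iot_inr] at h20
    exact Sum.inr_injective h20
  refine ⟨a, b, a', b', hwa, hwa', ?_, ?_⟩
  · rw [← hab, ← hab']
    group
  · rw [hb, hb', Perm.sign_swap hrs, Perm.sign_one, mul_one]

theorem nb_of (h1 : C_V0) (g : Perm (Pt m k)) (h : ¬ Bad g) : NB g := by
  intro r s hrs
  refine ⟨{x | (dl m k * iv g).SameCycle (Sum.inr r) x}, ?_, ?_, ⟨0, by simp⟩, ?_⟩
  · rintro x ⟨a, rfl⟩
    rw [(orbit_zr g r a).1]
    exact ⟨_, rfl⟩
  · rintro x ⟨a, rfl⟩
    rw [(orbit_zr g r a).2]
    exact ⟨_, rfl⟩
  · intro h2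
    exact h (bad_of h1 g r s hrs h2)

theorem val_step (h3 : C_STP) {R : Type} [CommRing R] {c : Fin m ⊕ Fin k}
    {cs : List (Fin m ⊕ Fin k)} {g : Perm (Pt m k)} (hs : Srt (c :: cs))
    (hw : wt (c :: cs) = (NF g).card) (hy : rk (dl m k (iv g (ctr c))) < rk (ctr c)) :
    val R (c :: cs) g = val R cs (swap (dl m k (iv g (ctr c))) (ctr c) * g) := by
  rw [val_cons]
  apply Finset.sum_eq_single_of_mem
  · rw [mem_filter]
    exact ⟨mem_univ _, hy⟩
  · intro y hy hne
    by_contra h
    exact hne (h3 R m k c cs g hs hw y (mem_filter.1 hy).2 h).1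

/-- Pairs which do not contain the two points. -/
theorem NF_other {g : Perm (Pt m k)} {y c : Pt m k} {l : Fin m}
    (hy : ∀ b, y ≠ Sum.inl (l, b)) (hc : ∀ b, c ≠ Sum.inl (l, b)) :
    l ∈ NF (swap y c * g) ↔ l ∈ NF g := by
  rw [mem_NF _ _ false, mem_NF _ _ false, iv_swap,
    swap_apply_of_ne_of_ne (hy _).symm (hc _).symm, not_iff_not]
  constructor
  · intro h
    have h3 := congrArg (swap y c) h
    rw [swap_apply_of_ne_of_ne (hy _).symm (hc _).symm] at h3
    rw [← h3]
    simp
  · intro h
    rw [h, swap_apply_of_ne_of_ne (hy _).symm (hc _).symm]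

/-- A function with all single points fixed has no other fixed points. -/
theorem no_fix {g : Perm (Pt m k)} (h : ∀ s, iv g (Sum.inr s) = Sum.inr s) (x : Fin m × Bool) :
    iv g (Sum.inl x) ≠ Sum.inl x := by
  intro hx
  have h4 : ∀ p, iv g p = p → ∃ r, g⁻¹ p = Sum.inr r := by
    intro p hp
    apply dl_fix
    have h6 : g (dl m k (g⁻¹ p)) = p := hp
    rw [Perm.eq_inv_iff_eq]
    exact h6
  choose f hf using fun s => h4 _ (h s)
  have hinj : Function.Injective f := by
    intro s t hst
    have h5 := hf s
    rw [hst, ← hf t] at h5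
    exact Sum.inr_injective (g⁻¹.injective h5)
  have hsurj := Finite.surjective_of_injective hinj
  obtain ⟨t, ht⟩ := h4 _ hx
  obtain ⟨s, rfl⟩ := hsurj t
  rw [← hf s] at ht
  exact absurd (g⁻¹.injective ht) (by simp)

theorem exist (h1 : C_V0) (h2 : C_LOW) (h3 : C_STP) (n : ℕ) :
    ∀ g : Perm (Pt m k), (NF g).card = n → NB g →
      ∃ cs, Srt cs ∧ wt cs = (NF g).card ∧ (val ℤ cs g = 1 ∨ val ℤ cs g = -1) := by
  induction n using Nat.strong_induction_on with
  | _ n ih =>
    intro g hn hnb
    by_cases hq : ∀ s, iv g (Sum.inr s) = Sum.inr s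
    · by_cases hN : NF g = ∅
      · -- `g` commutes with `dl`
        have hiv : iv g = dl m k := by
          ext p : 1
          rcases p with ⟨i, b⟩ | r
          · by_contra h
            have : i ∈ NF g := (mem_NF g i b).2 h
            rw [hN] at this
            simp at this
          · rw [hq, dl_inr]
        obtain ⟨a, b, hwa, hab⟩ := (h1.2.1 m k g).2 (comm_of_iv hiv)
        refine ⟨[], List.Pairwise.nil, ?_, ?_⟩
        · rw [wt_nil, hN, card_empty]
        · rw [val_nil, hab, (h1.2.2 ℤ m k).1 a b hwa]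
          simp only [Int.cast_id]
          rcases Int.units_eq_one_or (Perm.sign b) with h | h
          · left
            unfold sg
            rw [h]
            rfl
          · right
            unfold sg
            rw [h]
            rfl
      · -- the largest pair
        have hN' : (NF g).Nonempty := nonempty_iff_ne_empty.2 hN
        set i := (NF g).max' hN' with hi
        have hiN : i ∈ NF g := max'_mem _ _
        have himax : ∀ j ∈ NF g, j ≤ i := fun j hj => le_max' _ _ hj
        have hc0 : ctr (k := k) (Sum.inl i) = Sum.inl (i, false) := rfl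
        -- the partner
        obtain ⟨x, hx⟩ : ∃ x, iv g (Sum.inl (i, false)) = Sum.inl x := by
          rcases hu : iv g (Sum.inl (i, false)) with x | s
          · exact ⟨x, rfl⟩
          · exfalso
            have h4 := congrArg (iv g) hu
            rw [iv_iv, hq s] at h4
            exact absurd h4 (by simp)
        obtain ⟨j, b⟩ := x
        have hij : j ≠ i := by
          rintro rfl
          have h4 : b = true ∨ b = false := by cases b <;> simp
          rcases h4 with rfl | rfl
          · exact (mem_NF g _ false).1 hiN hx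
          · exact no_fix hq _ hx
        have hjN : j ∈ NF g := by
          rw [mem_NF g j b]
          intro h4
          have h5 := congrArg (iv g) hx
          rw [iv_iv, h4] at h5
          apply hij
          simp only [Sum.inl.injEq, Prod.mk.injEq] at h5
          exact h5.1.symm
        have hji : (j : ℕ) < i := lt_of_le_of_ne (Fin.le_def.1 (himax j hjN))
          fun h => hij (Fin.ext h)
        set y : Pt m k := Sum.inl (j, !b) with hy
        have hyd : dl m k (iv g (ctr (Sum.inl i))) = y := by
          rw [hc0, hx, dl_inl]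
        set g' := swap y (ctr (Sum.inl i)) * g with hg'
        have hrk : rk (dl m k (iv g (ctr (Sum.inl i)))) < rk (ctr (m := m) (k := k) (Sum.inl i)) := by
          rw [hyd, hc0, hy, rk_inl, rk_inl]
          have := Bool.toNat_lt (!b)
          simp only [Bool.toNat_false]
          omega
        have hjN' : j ∉ NF g' := by
          rw [mem_NF g' j (!b), not_not, hg', iv_swap, ← hy, swap_apply_left, hc0, hx,
            swap_apply_of_ne_of_ne]
          · simp
          · rw [hy]
            cases b <;> simp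
          · intro h
            apply hij
            simp only [Sum.inl.injEq, Prod.mk.injEq] at h
            exact h.1
        have hoth : ∀ l, l ≠ i → l ≠ j → (l ∈ NF g' ↔ l ∈ NF g) := by
          intro l hl hl'
          apply NF_other
          · intro b'
            rw [hy]
            simpa using fun h => absurd h.symm hl'
          · intro b'
            rw [hc0]
            simpa using fun h => absurd h.symm hl
        have hq' : ∀ s, iv g' (Sum.inr s) = Sum.inr s := by
          intro s
          have h4 : ∀ s : Fin k, swap y (ctr (Sum.inl i)) (Sum.inr s) = Sum.inr s := by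
            intro s
            rw [hc0, hy]
            apply swap_apply_of_ne_of_ne
            · simp
            · simp
          rw [hg', iv_swap, h4, hq, h4]
        have hsub : NF g' ⊆ NF g := by
          intro l hl
          by_cases h5 : l = i
          · rw [h5]
            exact hiN
          · by_cases h6 : l = j
            · rw [h6] at hl
              exact absurd hl hjN'
            · exact (hoth l h5 h6).1 hl
        have hnb' : NB g' := by
          rw [hg', ← hyd]
          exact nb_step hnb _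
        have hlt : (NF g').card < n := by
          rw [← hn]
          apply card_lt_card
          rw [ssubset_iff_of_subset hsub]
          exact ⟨j, hjN, hjN'⟩
        obtain ⟨cs, hs, hw, hv⟩ := ih _ hlt g' rfl hnb'
        have hv0 : val ℤ cs g' ≠ 0 := by
          rcases hv with h | h <;> rw [h] <;> decide
        have hlow := (h2 ℤ m k cs g' hv0).2 hw.symm
        -- the heads
        have hsrt : Srt (Sum.inl i :: cs) := by
          unfold Srt
          rw [List.pairwise_cons]
          refine ⟨?_, hs⟩
          rcases cs with _ | ⟨c', cs'⟩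
          · simp
          · have h7 : rk (ctr c') ≤ rk (ctr (m := m) (k := k) (Sum.inl i)) := by
              have h8 := hf h1 h2 h3 hs hw hv0
              rcases c' with i' | r'
              · have h9 := himax _ (hsub (h8.2 i' rfl).2.1)
                rw [ctr_inl, ctr_inl, rk_inl, rk_inl]
                have : (i' : ℕ) ≤ i := h9
                omega
              · exact absurd (hq' r') (h8.1 r' rfl).1
            intro c'' hc''
            exact (srt_le hs c'' hc'').trans h7
        have hwt : wt (Sum.inl i :: cs) = (NF g).card := by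
          have hunion : (NF g).erase j = insert i (NF g') := by
            ext l
            rw [mem_erase, mem_insert]
            by_cases h5 : l = i
            · subst h5
              exact ⟨fun _ => Or.inl rfl, fun _ => ⟨hij.symm, hiN⟩⟩
            · by_cases h6 : l = j
              · subst h6
                simp [h5, hjN']
              · rw [hoth l h5 h6]
                simp [h5, h6]
          have hcard : (insert i (NF g')).card + 1 = (NF g).card := by
            rw [← hunion]
            exact card_erase_add_one hjN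
          by_cases hi' : i ∈ NF g'
          · rw [insert_eq_self.2 hi'] at hcard
            rw [wt_cons_inl_mem, hw, hcard]
            -- the head of `cs` is `i`
            rcases cs with _ | ⟨c', cs'⟩
            · exfalso
              rw [wt_nil] at hw
              have := card_pos.2 ⟨i, hi'⟩
              omega
            · have h8 := hf h1 h2 h3 hs hw hv0
              rcases c' with i' | r'
              · have h9 : i' = i := le_antisymm (himax _ (hsub (h8.2 i' rfl).2.1))
                  ((h8.2 i' rfl).2.2 i hi')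
                rw [h9]
                exact List.mem_cons_self
              · exact absurd (hq' r') (h8.1 r' rfl).1
          · rw [card_insert_of_notMem hi'] at hcard
            rw [wt_cons_inl_not_mem, hw, ← hcard]
            intro h9
            exact hi' (hlow ((mem_pc _ _).2 h9))
        refine ⟨Sum.inl i :: cs, hsrt, hwt, ?_⟩
        rw [val_step h3 hsrt hwt hrk, hyd]
        exact hv
    · -- the largest single point
      obtain ⟨r, hr, hrmax⟩ : ∃ r, iv g (Sum.inr r) ≠ Sum.inr r ∧
          ∀ s, r < s → iv g (Sum.inr s) = Sum.inr s := by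
        classical
        have hne : (univ.filter fun r : Fin k => iv g (Sum.inr r) ≠ Sum.inr r).Nonempty := by
          rw [not_forall] at hq
          obtain ⟨s, hs⟩ := hq
          exact ⟨s, by rw [mem_filter]; exact ⟨mem_univ _, hs⟩⟩
        refine ⟨_, (mem_filter.1 (max'_mem _ hne)).2, ?_⟩
        intro s hs
        by_contra h
        have h' : s ∈ univ.filter fun r : Fin k => iv g (Sum.inr r) ≠ Sum.inr r :=
          mem_filter.2 ⟨mem_univ _, h⟩
        exact absurd hs (not_lt.2 (le_max' _ s h'))
      have hc0 : ctr (m := m) (Sum.inr r) = Sum.inr r := rfl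
      obtain ⟨x, hx⟩ : ∃ x, iv g (Sum.inr r) = Sum.inl x := by
        rcases hu : iv g (Sum.inr r) with x | s
        · exact ⟨x, rfl⟩
        · exfalso
          have hrs : r ≠ s := by
            rintro rfl
            exact hr hu
          obtain ⟨S, _, hS, hrS, hsS⟩ := hnb r s hrs
          apply hsS
          rw [← hu]
          exact hS _ hrS
      obtain ⟨j, b⟩ := x
      have hjN : j ∈ NF g := by
        rw [mem_NF g j b]
        intro h4
        have h5 := congrArg (iv g) hx
        rw [iv_iv, h4] at h5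
        exact absurd h5 (by simp)
      set y : Pt m k := Sum.inl (j, !b) with hy
      have hyd : dl m k (iv g (ctr (Sum.inr r))) = y := by
        rw [hc0, hx, dl_inl]
      set g' := swap y (ctr (Sum.inr r)) * g with hg'
      have hrk : rk (dl m k (iv g (ctr (Sum.inr r)))) < rk (ctr (m := m) (k := k) (Sum.inr r)) := by
        rw [hyd, hc0, hy, rk_inl, rk_inr]
        have := Bool.toNat_lt (!b)
        have := j.2
        omega
      have hjN' : j ∉ NF g' := by
        rw [mem_NF g' j (!b), not_not, hg', iv_swap, ← hy, swap_apply_left, hc0, hx,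
          swap_apply_of_ne_of_ne]
        · simp
        · rw [hy]
          cases b <;> simp
        · simp
      have hoth : ∀ l, l ≠ j → (l ∈ NF g' ↔ l ∈ NF g) := by
        intro l hl'
        apply NF_other
        · intro b'
          rw [hy]
          simpa using fun h => absurd h.symm hl'
        · intro b'
          rw [hc0]
          simp
      have hNF' : NF g' = (NF g).erase j := by
        ext l
        rw [mem_erase]
        by_cases h6 : l = j
        · subst h6
          simp [hjN']
        · rw [hoth l h6]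
          simp [h6]
      have hq' : ∀ s, r < s → iv g' (Sum.inr s) = Sum.inr s := by
        intro s hs
        have h4 : swap y (ctr (Sum.inr r)) (Sum.inr s) = Sum.inr s := by
          rw [hc0, hy]
          apply swap_apply_of_ne_of_ne
          · simp
          · simpa using hs.ne'
        rw [hg', iv_swap, h4, hrmax s hs, h4]
      have hcard : (NF g').card + 1 = (NF g).card := by
        rw [hNF']
        exact card_erase_add_one hjN
      have hnb' : NB g' := by
        rw [hg', ← hyd]
        exact nb_step hnb _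
      obtain ⟨cs, hs, hw, hv⟩ := ih _ (by omega) g' rfl hnb'
      have hv0 : val ℤ cs g' ≠ 0 := by
        rcases hv with h | h <;> rw [h] <;> decide
      have hsrt : Srt (Sum.inr r :: cs) := by
        unfold Srt
        rw [List.pairwise_cons]
        refine ⟨?_, hs⟩
        rcases cs with _ | ⟨c', cs'⟩
        · simp
        · have h7 : rk (ctr c') ≤ rk (ctr (m := m) (k := k) (Sum.inr r)) := by
            have h8 := hf h1 h2 h3 hs hw hv0
            rcases c' with i' | r'
            · rw [ctr_inl, ctr_inr, rk_inl, rk_inr]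
              have := i'.2
              simp only [Bool.toNat_false]
              omega
            · rw [ctr_inr, ctr_inr, rk_inr, rk_inr]
              have h9 : r' ≤ r := by
                by_contra h10
                exact (h8.1 r' rfl).1 (hq' r' (not_le.1 h10))
              have : (r' : ℕ) ≤ r := h9
              omega
          intro c'' hc''
          exact (srt_le hs c'' hc'').trans h7
      have hwt : wt (Sum.inr r :: cs) = (NF g).card := by
        rw [wt_cons_inr, hw, hcard]
      refine ⟨Sum.inr r :: cs, hsrt, hwt, ?_⟩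
      rw [val_step h3 hsrt hwt hrk, hyd]
      exact hv

theorem v0_cast (R : Type) [CommRing R] (g : Perm (Pt m k)) :
    v0 R m k g = ((v0 ℤ m k g : ℤ) : R) := by
  unfold v0
  push_cast
  rfl

theorem val_cast (R : Type) [CommRing R] (cs : List (Fin m ⊕ Fin k)) :
    ∀ g : Perm (Pt m k), val R cs g = ((val ℤ cs g : ℤ) : R) := by
  induction cs with
  | nil =>
    intro g
    exact v0_cast R g
  | cons c cs ih =>
    intro g
    rw [val_cons, val_cons, Int.cast_sum]
    exact sum_congr rfl fun y _ => ih _

end AlgP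

theorem t_ALG (h1 : C_V0) (h2 : C_LOW) (h3 : C_STP) : C_ALG := by
  intro R _ m k g hg
  obtain ⟨cs, hs, hw, hv⟩ := AlgP.exist h1 h2 h3 _ g rfl (AlgP.nb_of h1 g hg)
  refine ⟨cs, hs, hw, ?_, ?_⟩
  · rw [AlgP.val_cast R cs g]
    rcases hv with h | h
    · left
      rw [h, Int.cast_one]
    · right
      rw [h, Int.cast_neg, Int.cast_one]
  · intro cs' hs' hw' hne
    by_contra h
    rw [AlgP.val_cast R cs' g] at h
    have h' : val ℤ cs' g ≠ 0 := by
      intro h0
      rw [h0, Int.cast_zero] at h
      exact h rfl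
    have hv0 : val ℤ cs g ≠ 0 := by
      rcases hv with h | h <;> rw [h] <;> decide
    exact hne (AlgP.unique h1 h2 h3 cs' cs g hs' hs hw' hw h' hv0)

end Pool.Agent.H74.TF
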