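import Mathlib

/-!
# Project TF: twisted Foulkes modules. Definitions of the final statement.
-/

set_option autoImplicit false

namespace Pool.Agent.H74.TF

open Finset Equiv

/-- Left translations of functions on a group: `(g ψ)(x) = ψ (g⁻¹ x)`. -/
def lt (R G U : Type) [CommRing R] [Group G] [AddCommGroup U] [Module R U] :
    Representation R G (G → U) where
  toFun g :=
    { toFun := fun ψ x => ψ (g⁻¹ * x)
      map_add' := fun _ _ => rfl
      map_smul' := fun _ _ => rfl }
  map_one' := by
    ext ψ x
    simp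
  map_mul' g h := by
    ext ψ x
    simp [mul_assoc]

/-- The number of cycles of a permutation, fixed points included. -/
noncomputable def cyc {α : Type} [Fintype α] [DecidableEq α] (g : Perm α) : ℕ :=
  Multiset.card g.partition.parts

/-- The action of the class sum `C_j`: the sum of all permutations with `|α| - j` cycles. -/
noncomputable def csum {R α U : Type} [CommRing R] [Fintype α] [DecidableEq α] [AddCommGroup U]
    [Module R U] (ρ : Representation R (Perm α) U) (j : ℕ) : Module.End R U :=
  ∑ g : Perm α with cyc g + j = Fintype.card α, ρ g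

/-- The polynomial `∏ (1 + r X) ^ c r` over the residues `r`. -/
noncomputable def lab (F : Type) [Field F] (p : ℕ) [NeZero p] (c : ZMod p → ℕ) : Polynomial F :=
  ∏ r : ZMod p, (1 + Polynomial.C (r.cast : F) * Polynomial.X) ^ c r

/-- The common generalised eigenspace of the class sums `C_j` for the eigenvalues `e.coeff j`.
For `e = lab F p c` it is the component in the block labelled by the `p`-content `c`, since the
centre of the group algebra is generated by the `C_j`. -/
noncomputable def blk {F α U : Type} [Field F] [Fintype α] [DecidableEq α] [AddCommGroup U]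
    [Module F U] (ρ : Representation F (Perm α) U) (e : Polynomial F) : Submodule F U :=
  ⨅ j : ℕ, Module.End.maxGenEigenspace (csum ρ j) (e.coeff j)

/-- `S_2 ≀ S_m`: the permutations which respect the partition of the `2m` points into pairs. -/
def wr {m : ℕ} (a : Perm (Fin m × Bool)) : Prop := ∀ i, (a (i, false)).1 = (a (i, true)).1

/-- The Foulkes module `H^(2^m)`: functions on `S_2m` constant on the cosets `g (S_2 ≀ S_m)`. -/
def FH (F : Type) [Field F] (m : ℕ) : Submodule F (Perm (Fin m × Bool) → F) where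
  carrier := {f | ∀ g a, wr a → f (g * a) = f g}
  zero_mem' := fun _ _ _ => rfl
  add_mem' := fun {f f'} hf hf' g a ha => by
    show f (g * a) + f' (g * a) = f g + f' g
    rw [hf g a ha, hf' g a ha]
  smul_mem' := fun c f hf g a ha => by
    show c • f (g * a) = c • f g
    rw [hf g a ha]

/-- The `2m + k` points. -/
abbrev Pt (m k : ℕ) := (Fin m × Bool) ⊕ Fin k

/-- The module induced from `W ⊠ sgn` for the subgroup `S_2m × S_k` of `S_(2m+k)`. -/
def Ind {F : Type} [Field F] {m : ℕ} (k : ℕ) (W : Submodule F (Perm (Fin m × Bool) → F)) :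
    Submodule F (Perm (Pt m k) → Perm (Fin m × Bool) → F) where
  carrier := {φ | (∀ g, φ g ∈ W) ∧ ∀ g a b,
    φ (g * Equiv.Perm.sumCongr a b) =
      ((Perm.sign b : ℤˣ) : ℤ) • lt F (Perm (Fin m × Bool)) F a⁻¹ (φ g)}
  zero_mem' := ⟨fun _ => W.zero_mem, fun g a b => by
    show (0 : Perm (Fin m × Bool) → F) = _
    rw [Pi.zero_apply, map_zero, smul_zero]⟩
  add_mem' := fun {f f'} hf hf' => ⟨fun g => W.add_mem (hf.1 g) (hf'.1 g), fun g a b => by
    rw [Pi.add_apply, Pi.add_apply, hf.2, hf'.2, map_add, smul_add]⟩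
  smul_mem' := fun c f hf => ⟨fun g => W.smul_mem c (hf.1 g), fun g a b => by
    rw [Pi.smul_apply, Pi.smul_apply, hf.2, map_smul, smul_comm]⟩

/-- The module `((H_σ ⊠ sgn) ↑)_τ` where the blocks `σ`, `τ` are given by polynomials. -/
noncomputable def TFS (F : Type) [Field F] (m k : ℕ) (e₁ e₂ : Polynomial F) :
    Submodule F (Perm (Pt m k) → Perm (Fin m × Bool) → F) :=
  Ind k (FH F m ⊓ blk (lt F (Perm (Fin m × Bool)) F) e₁) ⊓
    blk (lt F (Perm (Pt m k)) (Perm (Fin m × Bool) → F)) e₂

/-- `W` is not the sum of two nonzero invariant subspaces with zero intersection. -/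
def NoDec {F G U : Type} [Field F] [Group G] [AddCommGroup U] [Module F U]
    (ρ : Representation F G U) (W : Submodule F U) : Prop :=
  ∀ A B : Submodule F U, (∀ g, ∀ u ∈ A, ρ g u ∈ A) → (∀ g, ∀ u ∈ B, ρ g u ∈ B) →
    A ⊓ B = ⊥ → A ⊔ B = W → A = ⊥ ∨ B = ⊥

/-- The `p`-content of a Young diagram. -/
def pcont (p : ℕ) (lam : YoungDiagram) (r : ZMod p) : ℕ :=
  #{x ∈ lam.cells | ((x.2 : ZMod p) - (x.1 : ZMod p)) = r}

/-- The odd sequence of a Young diagram (rows are numbered from `0`, so `λ_j - j` is
`rowLen i - (i + 1)` for `j = i + 1`). -/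
def oddseq (p : ℕ) (lam : YoungDiagram) (r : ZMod p) : ℕ :=
  #{i ∈ range (lam.colLen 0) | Odd (lam.rowLen i) ∧
    ((lam.rowLen i : ZMod p) - ((i + 1 : ℕ) : ZMod p)) = r}

/-- The number of odd rows. -/
def nodd (lam : YoungDiagram) : ℕ := #{i ∈ range (lam.colLen 0) | Odd (lam.rowLen i)}

/-- The theorem to be proved: all modules of Q1 are nonzero and indecomposable. -/
def Goal : Prop :=
  ∀ (p : ℕ) [Fact p.Prime] (F : Type) [Field F] [CharP F p] (m k : ℕ) (lam : YoungDiagram),
    p ≠ 2 → lam.card = 2 * m + k → nodd lam = k →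
    let W := TFS F m k (lab F p fun r => pcont p lam r - oddseq p lam r) (lab F p (pcont p lam))
    W ≠ ⊥ ∧ NoDec (lt F (Perm (Pt m k)) (Perm (Fin m × Bool) → F)) W

end Pool.Agent.H74.TF
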