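import Pool.Agent.H74.TF.Stm

/-!
# Project TF: two more statements for the nonvanishing
-/

set_option autoImplicit false

namespace Pool.Agent.H74.TF

open Finset Equiv MvPolynomial

/-- The order of the `2m` points. -/
def rk0 {m : ℕ} (x : Fin m × Bool) : ℕ := 2 * (x.1 : ℕ) + x.2.toNat

/-- Row and column of the points in a filling. -/
def Fil.prow {m k : ℕ} (T : Fil m k) : Pt m k → ℕ
  | Sum.inl x => T.row x.1
  | Sum.inr s => T.qrow s

/-- Row and column of the points in a filling. -/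
def Fil.pcol {m k : ℕ} (T : Fil m k) : Pt m k → ℕ
  | Sum.inl x => 2 * T.dom x.1 + x.2.toNat
  | Sum.inr s => 2 * T.ν (T.qrow s)

/-- The row product of the dominoes. -/
noncomputable def Fil.D0 {m k : ℕ} (T : Fil m k) : MvPolynomial (Fin m × Bool) ℚ :=
  Dlt (fun x => T.row x.1) (fun x => 2 * T.dom x.1 + x.2.toNat)

open Classical in
/-- Its projection. -/
noncomputable def Fil.w0 {m k : ℕ} (T : Fil m k) : MvPolynomial (Fin m × Bool) ℚ :=
  ∑ a : Perm (Fin m × Bool) with wr a, pol (Fin m × Bool) a T.D0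

/-- **PH.** Symmetric polynomials in the Jucys-Murphy elements of the first points of the pairs act
on `w0` by scalars; the class sums act on `w0` by scalars. -/
def C_PH : Prop :=
  ∀ (m k : ℕ) (T : Fil m k)
    (ev : MvPolynomial (Fin m) ℚ →ₐ[ℚ] Module.End ℚ (MvPolynomial (Fin m × Bool) ℚ)),
    (∀ i, ev (X i) = JM (pol (Fin m × Bool)) rk0 (i, false)) →
    (∀ f : MvPolynomial (Fin m) ℚ, f.IsSymmetric →
      ev f T.w0 = (eval (fun i => ((T.x i : ℤ) : ℚ)) f) • T.w0) ∧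
    (∀ j, csum (pol (Fin m × Bool)) j T.w0 =
      (eval (fun x => ((T.x x.1 + x.2.toNat : ℤ) : ℚ)) (esymm (Fin m × Bool) ℚ j)) • T.w0)

/-- **PSI.** The leading coefficient with respect to the single points. -/
def C_PSI : Prop :=
  ∀ (m k : ℕ) (T : Fil m k),
    ∃ Ψ : MvPolynomial (Pt m k) ℚ →ₗ[ℚ] MvPolynomial (Fin m × Bool) ℚ,
      (∀ a f, Ψ (pol (Pt m k) (iot a 1) f) = pol (Fin m × Bool) a (Ψ f)) ∧
      ∃ c : ℚ, c ≠ 0 ∧
        Ψ (∑ g : Perm (Pt m k), v0 ℚ m k g • pol (Pt m k) g (Dlt T.prow T.pcol)) = c • T.w0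

/-- **LAM.** The class sums of `S_(2m+k)` act on the row product of the whole diagram by
scalars. -/
def C_LAM : Prop :=
  ∀ (m k : ℕ) (T : Fil m k) (j : ℕ),
    csum (pol (Pt m k)) j (Dlt T.prow T.pcol) =
      (eval (fun x => ((T.pcol x : ℤ) : ℚ) - ((T.prow x : ℤ) : ℚ)) (esymm (Pt m k) ℚ j)) •
        Dlt T.prow T.pcol

end Pool.Agent.H74.TF
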