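import Pool.Agent.H74.TF.TRI
import Pool.Agent.H74.TF.Stm2
import Pool.Agent.H26.TF.Low
import Pool.Agent.H37.TF.Symm
import Pool.Agent.H41.TF.Inn
import Pool.Agent.H41.TF.Rel
import Pool.Agent.H41.TF.Sb
import Pool.Agent.H57.TF.Cls
import Pool.Agent.H60.TF.Abs
import Pool.Agent.H60.TF.Res
import Pool.Agent.H61.TF.Gen
import Pool.Agent.H61.TF.Ind
import Pool.Agent.H61.TF.Trans
import Pool.Agent.H68.TF.Com
import Pool.Agent.H68.TF.Juc
import Pool.Agent.H80.TF.Ev
import Pool.Agent.H80.TF.Stp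
import Pool.Agent.H80.TF.Sym2
import Pool.Agent.H87.TF.ESY
import Pool.Agent.H87.TF.V0
import Pool.Agent.H91.TF.Val
import Pool.Agent.H91.TF.Nv1
import Pool.Agent.H30.TF.Nv0
import Pool.Agent.H30.TF.Psi
import Pool.Agent.H4.TF.Gar
import Pool.Agent.H4.TF.Ph
import Pool.Agent.H68.TF.Lam
import Pool.Agent.H68.TF.Pos

/-!
# Project TF: assembly
-/

set_option autoImplicit false

namespace Pool.Agent.H74.TF

/-- A submodule mapped by an injective equivariant map does not decompose if the image does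
not. -/
theorem nodec_map {F G U V : Type} [Field F] [Group G] [AddCommGroup U] [Module F U]
    [AddCommGroup V] [Module F V] (ρ : Representation F G U) (σ : Representation F G V)
    (T : U →ₗ[F] V) (hT : Function.Injective T) (he : ∀ g u, T (ρ g u) = σ g (T u))
    (W : Submodule F U) (h : NoDec ρ W) : NoDec σ (W.map T) := by
  intro A B hA hB hAB hW
  have hAW : A ≤ W.map T := by rw [← hW]; exact le_sup_left
  have hBW : B ≤ W.map T := by rw [← hW]; exact le_sup_right
  have hrA : A ≤ LinearMap.range T := hAW.trans LinearMap.map_le_range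
  have hrB : B ≤ LinearMap.range T := hBW.trans LinearMap.map_le_range
  have h1 := h (A.comap T) (B.comap T) (fun g u hu => by
      rw [Submodule.mem_comap] at hu ⊢
      rw [he]
      exact hA g _ hu) (fun g u hu => by
      rw [Submodule.mem_comap] at hu ⊢
      rw [he]
      exact hB g _ hu) (by
      rw [← Submodule.comap_inf, hAB]
      rw [Submodule.comap_bot]
      exact LinearMap.ker_eq_bot.2 hT) (by
      apply Submodule.map_injective_of_injective hT
      rw [Submodule.map_sup, Submodule.map_comap_eq, Submodule.map_comap_eq,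
        inf_eq_right.2 hrA, inf_eq_right.2 hrB, hW])
  rcases h1 with h1 | h1
  · left
    have h2 := congrArg (Submodule.map T) h1
    rwa [Submodule.map_comap_eq, inf_eq_right.2 hrA, Submodule.map_bot] at h2
  · right
    have h2 := congrArg (Submodule.map T) h1
    rwa [Submodule.map_comap_eq, inf_eq_right.2 hrB, Submodule.map_bot] at h2

theorem goal_of (h1 : C_IND) (h2 : C_NV1) (h3 : C_YD) (h4 : C_TRANS) : Goal := by
  intro p _ F _ _ m k lam hp hc hn
  have hodd : Odd p := (Fact.out : p.Prime).odd_of_ne_two hp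
  intro W
  obtain ⟨T, hT1, hT2⟩ := h3 p F m k lam hc hn
  obtain ⟨f, hf, he, hm⟩ := h4 F m k (lab F p fun r => pcont p lam r - oddseq p lam r)
    (lab F p (pcont p lam))
  have hW : W = (WW F m k (T.e1 F) (T.e2 F)).map f := by
    rw [← hT1, ← hT2, hm]
  rw [hW]
  constructor
  · intro h0
    exact h2 p F m k T hodd (Submodule.map_injective_of_injective hf
      (h0.trans (Submodule.map_bot f).symm))
  · exact nodec_map _ _ f hf he _ (h1 p F m k _ _ hodd)

theorem goal_of_YD (hYD : C_YD) : Goal := by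
  have hV0 : C_V0 := Pool.Agent.H87.TF.t_V0
  have hEV : C_EV := Pool.Agent.H80.TF.t_EV
  have hCOM : C_COM := Pool.Agent.H68.TF.t_COM
  have hJUC : C_JUC := Pool.Agent.H68.TF.t_JUC
  have hREL : C_REL := Pool.Agent.H41.TF.t_REL hV0
  have hSYM2 : C_SYM2 := Pool.Agent.H80.TF.t_SYM2
  have hSYMM : C_SYMM := Pool.Agent.H37.TF.t_SYMM hCOM hREL hSYM2 hV0
  have hSB : C_SB := Pool.Agent.H41.TF.t_SB hCOM hREL
  have hOUT : C_OUT := Pool.Agent.H41.TF.t_OUT hEV hCOM hJUC hSB
  have hINN : C_INN := Pool.Agent.H41.TF.t_INN hEV hCOM hJUC hREL hV0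
  have hESY : C_ESY := Pool.Agent.H87.TF.t_ESY
  have hVAL : C_VAL := t_VAL
  have hLOW : C_LOW := Pool.Agent.H26.TF.t_LOW hV0
  have hGENW : C_GENW := Pool.Agent.H26.TF.t_GENW hV0
  have hSTP : C_STP := Pool.Agent.H80.TF.t_STP hV0 hLOW
  have hALG : C_ALG := t_ALG hV0 hLOW hSTP
  have hCLS : C_CLS := Pool.Agent.H57.TF.t_CLS hV0 hGENW
  have hTRI : C_TRI := t_TRI hVAL hSYMM hALG hCLS hLOW
  have hGEN : C_GEN := Pool.Agent.H61.TF.t_GEN hV0
  have hRES : C_RES := Pool.Agent.H60.TF.t_RES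
  have hABS : C_ABS := Pool.Agent.H60.TF.t_ABS
  have hIND : C_IND := Pool.Agent.H61.TF.t_IND hEV hCOM hOUT hINN hSYMM hESY hTRI hGEN hRES hABS hV0
  have hTRANS : C_TRANS := Pool.Agent.H61.TF.t_TRANS
  have hGAR : C_GAR := Pool.Agent.H4.TF.t_GAR
  have hPH : C_PH := Pool.Agent.H4.TF.t_PH hEV hCOM hJUC hSYMM hGAR hV0
  have hLAM : C_LAM := Pool.Agent.H68.TF.t_LAM hEV hCOM hJUC hGAR
  have hPSI : C_PSI := Pool.Agent.H30.TF.t_PSI
  have hPOS : C_POS := Pool.Agent.H68.TF.t_POS
  have hNV0 : C_NV0 := Pool.Agent.H30.TF.Nv.t_NV0 hEV hCOM hJUC hESY hPH hLAM hPSI hPOS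
  have hNV1 : C_NV1 := t_NV1 hEV hCOM hOUT hINN hSYMM hESY hTRI hNV0 hV0
  exact goal_of hIND hNV1 hYD hTRANS

end Pool.Agent.H74.TF
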