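import Pool.Agent.H74.TF.Defs

/-!
# Project TF: statements of the parts

`R` is a commutative ring, often with the hypothesis `h2 : ∀ a : R, a + a = 0 → a = 0`
(it will be used for `R = ℤ` and for fields of characteristic different from `2`).
`C_XXX` is the statement proved in part `XXX`; a part may use the statements of the parts listed
as its dependencies as hypotheses, for example `theorem t_OUT (h1 : C_JUC) (h2 : C_REL) : C_OUT`.
-/

set_option autoImplicit false

namespace Pool.Agent.H74.TF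

open Finset Equiv MvPolynomial

/-! ## General: Jucys-Murphy elements -/

/-- **EV.** Evaluation of polynomials at commuting elements. -/
def C_EV : Prop :=
  ∀ (R A σ : Type) [CommRing R] [Ring A] [Algebra R A] (J : σ → A), (∀ x y, Commute (J x) (J y)) →
    ∃ ev : MvPolynomial σ R →ₐ[R] A, ∀ x, ev (X x) = J x

/-- The Jucys-Murphy operator of the point `x` for the order given by `rk`, in the
representation `ρ`. -/
noncomputable def JM {R α U : Type} [CommRing R] [Fintype α] [DecidableEq α] [AddCommGroup U]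
    [Module R U] (ρ : Representation R (Perm α) U) (rk : α → ℕ) (x : α) : Module.End R U :=
  ∑ y : α with rk y < rk x, ρ (swap y x)

/-- **COM.** Jucys-Murphy elements commute; the relations with the transposition of two
neighbours. -/
def C_COM : Prop :=
  ∀ (R α U : Type) [CommRing R] [Fintype α] [DecidableEq α] [AddCommGroup U] [Module R U]
    (ρ : Representation R (Perm α) U) (rk : α → ℕ), Function.Injective rk →
    (∀ x y, Commute (JM ρ rk x) (JM ρ rk y)) ∧
    (∀ x (g : Perm α), (∀ y, rk y < rk x → rk (g y) < rk x) → g x = x →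
      Commute (ρ g) (JM ρ rk x)) ∧
    (∀ x x', rk x < rk x' → (∀ y, rk y < rk x ∨ rk x' < rk y ∨ y = x ∨ y = x') →
      ρ (swap x x') * JM ρ rk x = JM ρ rk x' * ρ (swap x x') - 1 ∧
      Commute (ρ (swap x x')) (JM ρ rk x + JM ρ rk x') ∧
      Commute (ρ (swap x x')) (JM ρ rk x * JM ρ rk x') ∧
      ∀ y, y ≠ x → y ≠ x' → Commute (ρ (swap x x')) (JM ρ rk y))

/-- **JUC.** Jucys: the elementary symmetric polynomials of the Jucys-Murphy elements are the class
sums. -/
def C_JUC : Prop :=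
  ∀ (R α U : Type) [CommRing R] [Fintype α] [DecidableEq α] [AddCommGroup U] [Module R U]
    (ρ : Representation R (Perm α) U) (rk : α → ℕ)
    (ev : MvPolynomial α R →ₐ[R] Module.End R U), Function.Injective rk →
    (∀ x, ev (X x) = JM ρ rk x) → ∀ j, csum ρ j = ev (esymm α R j)

/-! ## The vector `v0` and the spaces `MM`, `SE` -/

/-- The order of the points: `(0, false), (0, true), (1, false), …`, then the `k` single points. -/
def rk {m k : ℕ} : Pt m k → ℕ
  | Sum.inl (i, b) => 2 * (i : ℕ) + b.toNat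
  | Sum.inr r => 2 * m + (r : ℕ)

/-- The embedding of `S_2m × S_k`. -/
abbrev iot {m k : ℕ} (a : Perm (Fin m × Bool)) (b : Perm (Fin k)) : Perm (Pt m k) :=
  Equiv.Perm.sumCongr a b

/-- The sign of a permutation as an integer. -/
abbrev sg {k : ℕ} (b : Perm (Fin k)) : ℤ := ((Perm.sign b : ℤˣ) : ℤ)

open Classical in
/-- The generator: `sign b` at `iot a b` for `a` in `S_2 ≀ S_m`, and `0` elsewhere. -/
noncomputable def v0 (R : Type) [CommRing R] (m k : ℕ) (g : Perm (Pt m k)) : R :=
  ∑ a : Perm (Fin m × Bool), ∑ b : Perm (Fin k),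
    if wr a ∧ g = iot a b then ((sg b : ℤ) : R) else 0

/-- The twisted Foulkes module as a space of functions on the symmetric group. -/
def MM (R : Type) [CommRing R] (m k : ℕ) : Submodule R (Perm (Pt m k) → R) where
  carrier := {ψ | ∀ g a b, wr a → ψ (g * iot a b) = sg b • ψ g}
  zero_mem' := fun _ _ _ _ => by simp
  add_mem' := fun {f f'} hf hf' g a b ha => by
    rw [Pi.add_apply, Pi.add_apply, hf g a b ha, hf' g a b ha, smul_add]
  smul_mem' := fun c f hf g a b ha => by
    rw [Pi.smul_apply, Pi.smul_apply, hf g a b ha, smul_comm]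

/-- The functions which are semi-invariant on both sides. -/
def SE (R : Type) [CommRing R] (m k : ℕ) : Submodule R (Perm (Pt m k) → R) where
  carrier := {ψ | ∀ g a b, wr a → ψ (g * iot a b) = sg b • ψ g ∧ ψ (iot a b * g) = sg b • ψ g}
  zero_mem' := fun _ _ _ _ => by simp
  add_mem' := fun {f f'} hf hf' g a b ha => by
    constructor
    · rw [Pi.add_apply, Pi.add_apply, (hf g a b ha).1, (hf' g a b ha).1, smul_add]
    · rw [Pi.add_apply, Pi.add_apply, (hf g a b ha).2, (hf' g a b ha).2, smul_add]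
  smul_mem' := fun c f hf g a b ha => by
    constructor
    · rw [Pi.smul_apply, Pi.smul_apply, (hf g a b ha).1, smul_comm]
    · rw [Pi.smul_apply, Pi.smul_apply, (hf g a b ha).2, smul_comm]

/-- The representation by left translations. -/
abbrev LL (R : Type) [CommRing R] (m k : ℕ) : Representation R (Perm (Pt m k)) (Perm (Pt m k) → R) :=
  lt R (Perm (Pt m k)) R

/-- Jucys-Murphy operators on functions on the symmetric group. -/
noncomputable abbrev JJ (R : Type) [CommRing R] (m k : ℕ) (x : Pt m k) :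
    Module.End R (Perm (Pt m k) → R) := JM (LL R m k) rk x

/-- The involution which flips the pairs. -/
def dl (m k : ℕ) : Perm (Pt m k) :=
  Equiv.Perm.sumCongr (Equiv.prodCongr (Equiv.refl _) Equiv.boolNot) (Equiv.refl _)

/-- **V0.** Elementary properties. -/
def C_V0 : Prop :=
  (∀ (m k : ℕ) (a : Perm (Fin m × Bool)), wr a ↔ ∀ i b, a (i, !b) = ((a (i, b)).1, !(a (i, b)).2)) ∧
  (∀ (m k : ℕ) (g : Perm (Pt m k)), (∃ a b, wr a ∧ g = iot a b) ↔ g * dl m k = dl m k * g) ∧
  (∀ (R : Type) [CommRing R] (m k : ℕ),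
    (∀ a b, wr a → v0 R m k (iot a b) = ((sg b : ℤ) : R)) ∧
    (∀ g, (¬ ∃ a b, wr a ∧ g = iot a b) → v0 R m k g = 0) ∧
    v0 R m k ∈ SE R m k ∧ SE R m k ≤ MM R m k ∧
    (∀ g, ∀ ψ ∈ MM R m k, LL R m k g ψ ∈ MM R m k))

/-- **REL.** The relation `J_(2i) v0 = (J_(2i-1) + 1) v0`. -/
def C_REL : Prop :=
  ∀ (R : Type) [CommRing R] (m k : ℕ) (i : Fin m),
    JJ R m k (Sum.inl (i, true)) (v0 R m k) = JJ R m k (Sum.inl (i, false)) (v0 R m k) + v0 R m k

/-! ## Polynomials -/

/-- The points whose Jucys-Murphy elements are used. -/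
def ctr {m k : ℕ} : Fin m ⊕ Fin k → Pt m k
  | Sum.inl i => Sum.inl (i, false)
  | Sum.inr r => Sum.inr r

/-- Symmetric in both groups of variables. -/
def BiSym {R : Type} [CommRing R] {m k : ℕ} (f : MvPolynomial (Fin m ⊕ Fin k) R) : Prop :=
  ∀ (π : Perm (Fin m)) (π' : Perm (Fin k)), rename (Sum.map π π') f = f

/-- `evs` is the evaluation at the Jucys-Murphy operators of the points `ctr c`. -/
def IsEv {R : Type} [CommRing R] {m k : ℕ}
    (evs : MvPolynomial (Fin m ⊕ Fin k) R →ₐ[R] Module.End R (Perm (Pt m k) → R)) : Prop :=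
  ∀ c, evs (X c) = JJ R m k (ctr c)

/-- `x_1, x_1 + 1, x_2, x_2 + 1, …` -/
noncomputable def s1 (R : Type) [CommRing R] (m k : ℕ) :
    Fin m × Bool → MvPolynomial (Fin m ⊕ Fin k) R :=
  fun x => X (Sum.inl x.1) + if x.2 then 1 else 0

/-- `x_1, x_1 + 1, x_2, x_2 + 1, …, y_1, …, y_k` -/
noncomputable def s2 (R : Type) [CommRing R] (m k : ℕ) :
    Pt m k → MvPolynomial (Fin m ⊕ Fin k) R
  | Sum.inl x => s1 R m k x
  | Sum.inr r => X (Sum.inr r)

/-- The elementary symmetric polynomials `e_1(x), …, e_m(x), e_1(y), …, e_k(y)`. -/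
noncomputable def es (R : Type) [CommRing R] (m k : ℕ) :
    Fin m ⊕ Fin k → MvPolynomial (Fin m ⊕ Fin k) R
  | Sum.inl i => rename Sum.inl (esymm (Fin m) R (i + 1))
  | Sum.inr r => rename Sum.inr (esymm (Fin k) R (r + 1))

/-- The inner class sums: right multiplication by the class sums of `S_2m`. -/
noncomputable def RJ (R : Type) [CommRing R] (m k : ℕ) (j : ℕ) :
    Module.End R (Perm (Pt m k) → R) where
  toFun ψ := fun g =>
    ∑ s : Perm (Fin m × Bool) with cyc s + j = Fintype.card (Fin m × Bool), ψ (g * iot s 1)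
  map_add' ψ ψ' := by
    ext g
    simp [sum_add_distrib]
  map_smul' c ψ := by
    ext g
    simp [mul_sum]

/-- **SB.** Substitution: all Jucys-Murphy elements act on `v0` through `evs`. -/
def C_SB : Prop :=
  ∀ (R : Type) [CommRing R] (m k : ℕ)
    (ev : MvPolynomial (Pt m k) R →ₐ[R] Module.End R (Perm (Pt m k) → R))
    (evs : MvPolynomial (Fin m ⊕ Fin k) R →ₐ[R] Module.End R (Perm (Pt m k) → R)),
    (∀ x, ev (X x) = JJ R m k x) → IsEv evs → ∀ f,
      ev f (v0 R m k) = evs (aeval (s2 R m k) f) (v0 R m k)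

/-- **OUT.** The class sums of `S_(2m+k)` on `v0`. -/
def C_OUT : Prop :=
  ∀ (R : Type) [CommRing R] (m k : ℕ)
    (evs : MvPolynomial (Fin m ⊕ Fin k) R →ₐ[R] Module.End R (Perm (Pt m k) → R)), IsEv evs →
    ∀ j, csum (LL R m k) j (v0 R m k) = evs (aeval (s2 R m k) (esymm (Pt m k) R j)) (v0 R m k)

/-- **INN.** The inner class sums on `v0`. -/
def C_INN : Prop :=
  ∀ (R : Type) [CommRing R] (m k : ℕ)
    (evs : MvPolynomial (Fin m ⊕ Fin k) R →ₐ[R] Module.End R (Perm (Pt m k) → R)), IsEv evs →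
    (∀ j, RJ R m k j (v0 R m k) =
      evs (aeval (s1 R m k) (esymm (Fin m × Bool) R j)) (v0 R m k)) ∧
    (∀ j g ψ, RJ R m k j (LL R m k g ψ) = LL R m k g (RJ R m k j ψ)) ∧
    (∀ j, ∀ ψ ∈ MM R m k, RJ R m k j ψ ∈ MM R m k) ∧
    (∀ j g, Commute (csum (LL R m k) j) (LL R m k g))

/-- **SYM2.** A polynomial symmetric in two of its variables. -/
def C_SYM2 : Prop :=
  ∀ (R σ : Type) [CommRing R] [DecidableEq σ] [Finite σ] (i j : σ) (f : MvPolynomial σ R), i ≠ j →
    rename (swap i j) f = f →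
    f ∈ Algebra.adjoin R ({X i + X j, X i * X j} ∪ X '' {l | l ≠ i ∧ l ≠ j})

/-- **SYMM.** Symmetric polynomials give semi-invariant functions. -/
def C_SYMM : Prop :=
  ∀ (R : Type) [CommRing R] (m k : ℕ)
    (evs : MvPolynomial (Fin m ⊕ Fin k) R →ₐ[R] Module.End R (Perm (Pt m k) → R)),
    (∀ a : R, a + a = 0 → a = 0) → IsEv evs → ∀ f, BiSym f → evs f (v0 R m k) ∈ SE R m k

/-- **ESY.** Fundamental theorem for two groups of variables. -/
def C_ESY : Prop :=
  ∀ (R : Type) [CommRing R] (m k : ℕ),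
    (∀ f : MvPolynomial (Fin m ⊕ Fin k) R, BiSym f ↔
      ∃ q : MvPolynomial (Fin m ⊕ Fin k) R, aeval (es R m k) q = f) ∧
    (∀ j, BiSym (aeval (s1 R m k) (esymm (Fin m × Bool) R j))) ∧
    (∀ j, BiSym (aeval (s2 R m k) (esymm (Pt m k) R j)))

/-! ## Triangularity -/

/-- The involution belonging to `g`. -/
def iv {m k : ℕ} (g : Perm (Pt m k)) : Perm (Pt m k) := g * dl m k * g⁻¹

/-- The pairs which are not pairs of `iv g`. -/
def NF {m k : ℕ} (g : Perm (Pt m k)) : Finset (Fin m) :=
  {i | iv g (Sum.inl (i, false)) ≠ Sum.inl (i, true)}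

/-- Semi-invariant functions vanish at `g`. -/
def Bad {m k : ℕ} (g : Perm (Pt m k)) : Prop :=
  ∃ a b a' b', wr a ∧ wr a' ∧ iot a b * g * iot a' b' = g ∧ Perm.sign b * Perm.sign b' = -1

/-- The values of the product of the Jucys-Murphy operators of a list of points applied to
`v0`. -/
noncomputable def val (R : Type) [CommRing R] {m k : ℕ} :
    List (Fin m ⊕ Fin k) → Perm (Pt m k) → R
  | [], g => v0 R m k g
  | c :: cs, g => ∑ y : Pt m k with rk y < rk (ctr c), val R cs (swap y (ctr c) * g)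

open Classical in
/-- The pairs in a list of centres. -/
noncomputable def pc {m k : ℕ} (cs : List (Fin m ⊕ Fin k)) : Finset (Fin m) := {i | Sum.inl i ∈ cs}

/-- The weight: the length plus the number of different pairs in the list. -/
noncomputable def wt {m k : ℕ} (cs : List (Fin m ⊕ Fin k)) : ℕ := cs.length + (pc cs).card

/-- Sorted: the largest centres come first. -/
def Srt {m k : ℕ} (cs : List (Fin m ⊕ Fin k)) : Prop :=
  cs.Pairwise fun c c' => rk (ctr c') ≤ rk (ctr c)

/-- **VAL.** `val` and the evaluation of monomials. -/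
def C_VAL : Prop :=
  ∀ (R : Type) [CommRing R] (m k : ℕ)
    (evs : MvPolynomial (Fin m ⊕ Fin k) R →ₐ[R] Module.End R (Perm (Pt m k) → R)), IsEv evs →
    ∀ cs g, evs (cs.map X).prod (v0 R m k) g = val R cs g

/-- **LOW.** The monomials of weight `w` only see permutations which move at most `w` pairs. If
exactly `w` pairs are moved then the centres are among them. -/
def C_LOW : Prop :=
  ∀ (R : Type) [CommRing R] (m k : ℕ) (cs : List (Fin m ⊕ Fin k)) (g : Perm (Pt m k)),
    val R cs g ≠ 0 → (NF g).card ≤ wt cs ∧ ((NF g).card = wt cs → pc cs ⊆ NF g)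

/-- **STP.** The only relevant transposition at the first centre. -/
def C_STP : Prop :=
  ∀ (R : Type) [CommRing R] (m k : ℕ) (c : Fin m ⊕ Fin k) (cs : List (Fin m ⊕ Fin k))
    (g : Perm (Pt m k)), Srt (c :: cs) → wt (c :: cs) = (NF g).card →
    ∀ y, rk y < rk (ctr c) → val R cs (swap y (ctr c) * g) ≠ 0 →
      y = dl m k (iv g (ctr c)) ∧ (NF (swap y (ctr c) * g)).card = wt cs

/-- **ALG.** For every `g` which is not bad there is exactly one sorted list of the right weight
for which the value does not vanish, and it is `1` or `-1`. -/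
def C_ALG : Prop :=
  ∀ (R : Type) [CommRing R] (m k : ℕ) (g : Perm (Pt m k)), ¬ Bad g →
    ∃ cs, Srt cs ∧ wt cs = (NF g).card ∧ (val R cs g = 1 ∨ val R cs g = -1) ∧
      ∀ cs', Srt cs' → wt cs' = (NF g).card → cs' ≠ cs → val R cs' g = 0

/-- **GENW.** Description of the permutations of the largest possible weight. -/
def C_GENW : Prop :=
  ∀ (R : Type) [CommRing R] (m k : ℕ) (cs : List (Fin m ⊕ Fin k)) (g : Perm (Pt m k)),
    val R cs g ≠ 0 → wt cs = (NF g).card →
    ∃ ys : List (Fin m × Bool), ys.length = cs.length ∧ (ys.map Prod.fst).Nodup ∧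
      (∀ y ∈ ys, y.1 ∉ pc cs) ∧ ∃ a b, wr a ∧
        g = (List.zipWith (fun y c => swap (Sum.inl y) (ctr c)) ys cs).prod * iot a b

/-- **CLS.** Classification: the type of the list determines the double coset. -/
def C_CLS : Prop :=
  ∀ (R : Type) [CommRing R] (m k : ℕ) (cs cs' : List (Fin m ⊕ Fin k)) (g g' : Perm (Pt m k))
    (π : Perm (Fin m)) (π' : Perm (Fin k)), Srt cs → Srt cs' →
    wt cs = (NF g).card → wt cs' = (NF g').card → val R cs g ≠ 0 → val R cs' g' ≠ 0 →
    cs'.Perm (cs.map (Sum.map π π')) →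
    ∃ a b a' b', wr a ∧ wr a' ∧ g' = iot a b * g * iot a' b'

/-- **TRI.** Triangularity: the symmetric polynomials of Jucys-Murphy elements give all
semi-invariant functions. -/
def C_TRI : Prop :=
  ∀ (R : Type) [CommRing R] (m k : ℕ)
    (evs : MvPolynomial (Fin m ⊕ Fin k) R →ₐ[R] Module.End R (Perm (Pt m k) → R)),
    (∀ a : R, a + a = 0 → a = 0) → IsEv evs → ∀ ψ ∈ SE R m k,
      ∃ f, BiSym f ∧ evs f (v0 R m k) = ψ

/-! ## Algebra -/

/-- **GEN.** `MM` is generated by `v0`, and homomorphisms can be prescribed on `v0`. -/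
def C_GEN : Prop :=
  ∀ (F : Type) [Field F] (m k : ℕ),
    (∀ ψ ∈ MM F m k, ψ ∈ Submodule.span F (Set.range fun g => LL F m k g (v0 F m k))) ∧
    (∀ w ∈ SE F m k, ∃ T : Module.End F (Perm (Pt m k) → F), (∀ ψ ∈ MM F m k, T ψ ∈ MM F m k) ∧
      (∀ ψ ∈ MM F m k, ∀ g, T (LL F m k g ψ) = LL F m k g (T ψ)) ∧ T (v0 F m k) = w)

/-- **RES.** A homomorphism is determined by its values at the class sums. -/
def C_RES : Prop :=
  ∀ (p : ℕ) (F K : Type) [Field F] [CharP F p] [Field K] [Algebra F K] [IsAlgClosed K] (m k : ℕ)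
    (qi qo : ℕ → MvPolynomial (Fin m ⊕ Fin k) F), Odd p →
    (∀ j, aeval (es F m k) (qi j) = aeval (s1 F m k) (esymm (Fin m × Bool) F j)) →
    (∀ j, aeval (es F m k) (qo j) = aeval (s2 F m k) (esymm (Pt m k) F j)) →
    ∀ θ θ' : MvPolynomial (Fin m ⊕ Fin k) F →ₐ[F] K, (∀ j, θ (qi j) = θ' (qi j)) →
      (∀ j, θ (qo j) = θ' (qo j)) → θ = θ'

/-- **ABS.** Abstract indecomposability. -/
def C_ABS : Prop :=
  ∀ (F U G S ι : Type) [Field F] [AddCommGroup U] [Module F U] [FiniteDimensional F U] [Group G]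
    [CommRing S] [Algebra F S] (ρ : Representation F G U) (M : Submodule F U) (v : U)
    (E : S →ₐ[F] Module.End F U) (q : ι → S) (d : ι → F) (D : ι → Module.End F U),
    (∀ g, ∀ u ∈ M, ρ g u ∈ M) → v ∈ M →
    (∀ u ∈ M, u ∈ Submodule.span F (Set.range fun g => ρ g v)) →
    (∀ T : Module.End F U, (∀ u ∈ M, T u ∈ M) → (∀ u ∈ M, ∀ g, T (ρ g u) = ρ g (T u)) →
      ∃ f, T v = E f v) →
    (∀ f : S, ∃ T : Module.End F U, (∀ u ∈ M, T u ∈ M) ∧ (∀ u ∈ M, ∀ g, T (ρ g u) = ρ g (T u)) ∧
      T v = E f v) →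
    (∀ f, E f ∈ Submodule.span F (Set.range fun g => ρ g)) →
    (∀ j, (∀ u ∈ M, D j u ∈ M) ∧ (∀ u ∈ M, ∀ g, D j (ρ g u) = ρ g (D j u)) ∧
      D j v = E (q j) v) →
    (∀ θ θ' : S →ₐ[F] AlgebraicClosure F, (∀ j, θ (q j) = algebraMap F _ (d j)) →
      (∀ j, θ' (q j) = algebraMap F _ (d j)) → θ = θ') →
    NoDec ρ (M ⊓ ⨅ j, Module.End.maxGenEigenspace (D j) (d j))

/-- The component in the model of functions on `S_(2m+k)`. -/
noncomputable def WW (F : Type) [Field F] (m k : ℕ) (e₁ e₂ : Polynomial F) :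
    Submodule F (Perm (Pt m k) → F) :=
  MM F m k ⊓ (⨅ j, Module.End.maxGenEigenspace (RJ F m k j) (e₁.coeff j)) ⊓
    blk (LL F m k) e₂

/-- **TRANS.** Change of the model. -/
def C_TRANS : Prop :=
  ∀ (F : Type) [Field F] (m k : ℕ) (e₁ e₂ : Polynomial F),
    ∃ T : (Perm (Pt m k) → F) →ₗ[F] (Perm (Pt m k) → Perm (Fin m × Bool) → F),
      Function.Injective T ∧
      (∀ g ψ, T (LL F m k g ψ) = lt F (Perm (Pt m k)) (Perm (Fin m × Bool) → F) g (T ψ)) ∧
      (WW F m k e₁ e₂).map T = TFS F m k e₁ e₂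

/-- **IND.** The components do not decompose. -/
def C_IND : Prop :=
  ∀ (p : ℕ) (F : Type) [Field F] [CharP F p] (m k : ℕ) (e₁ e₂ : Polynomial F), Odd p →
    NoDec (LL F m k) (WW F m k e₁ e₂)

/-! ## Nonvanishing -/

/-- A filling: `ν r` dominoes in row `r`, the domino number `i` is in row `row i` at the place
`dom i` (row reading order), and the single point `s` is at the end of row `qrow s`. -/
structure Fil (m k : ℕ) where
  ν : ℕ → ℕ
  row : Fin m → ℕ
  dom : Fin m → ℕ
  qrow : Fin k → ℕ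
  lex : ∀ i i', i < i' ↔ row i < row i' ∨ row i = row i' ∧ dom i < dom i'
  full : ∀ r j, (∃ i, row i = r ∧ dom i = j) ↔ j < ν r
  qmono : StrictMono qrow
  anti : ∀ r, 2 * ν (r + 1) + (if ∃ s, qrow s = r + 1 then 1 else 0) ≤
    2 * ν r + (if ∃ s, qrow s = r then 1 else 0)

/-- The content of the first cell of a domino. -/
def Fil.x {m k : ℕ} (T : Fil m k) (i : Fin m) : ℤ := 2 * T.dom i - T.row i

/-- The content of the cell of a single point. -/
def Fil.y {m k : ℕ} (T : Fil m k) (s : Fin k) : ℤ := 2 * T.ν (T.qrow s) - T.qrow s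

/-- The polynomial `∏ (1 + x_i T) (1 + (x_i + 1) T)`. -/
noncomputable def Fil.e1 {m k : ℕ} (T : Fil m k) (F : Type) [Field F] : Polynomial F :=
  ∏ i, ((1 + Polynomial.C ((T.x i : ℤ) : F) * Polynomial.X) *
    (1 + Polynomial.C ((T.x i + 1 : ℤ) : F) * Polynomial.X))

/-- The polynomial `∏ (1 + x_i T) (1 + (x_i + 1) T) ∏ (1 + y_s T)`. -/
noncomputable def Fil.e2 {m k : ℕ} (T : Fil m k) (F : Type) [Field F] : Polynomial F :=
  T.e1 F * ∏ s, (1 + Polynomial.C ((T.y s : ℤ) : F) * Polynomial.X)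

/-- **YD.** The filling of a Young diagram. -/
def C_YD : Prop :=
  ∀ (p : ℕ) [Fact p.Prime] (F : Type) [Field F] [CharP F p] (m k : ℕ) (lam : YoungDiagram),
    lam.card = 2 * m + k → nodd lam = k → ∃ T : Fil m k,
      lab F p (fun r => pcont p lam r - oddseq p lam r) = T.e1 F ∧
      lab F p (pcont p lam) = T.e2 F

/-- The representation on polynomials, twisted by the sign. -/
noncomputable def pol (α : Type) [Fintype α] [DecidableEq α] :
    Representation ℚ (Perm α) (MvPolynomial α ℚ) where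
  toFun g := ((Perm.sign g : ℤˣ) : ℤ) • (rename g : MvPolynomial α ℚ →ₐ[ℚ] _).toLinearMap
  map_one' := by
    ext f
    simp
  map_mul' g h := by
    refine LinearMap.ext fun f => ?_
    simp only [map_mul, Units.val_mul, LinearMap.smul_apply, AlgHom.toLinearMap_apply,
      Module.End.mul_apply, map_zsmul, rename_rename, Perm.coe_mul, smul_smul]
    rw [mul_comm]

/-- The product of the Vandermonde determinants of the rows. -/
noncomputable def Dlt {α : Type} [Fintype α] [DecidableEq α] (row col : α → ℕ) :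
    MvPolynomial α ℚ :=
  ∏ x : α, ∏ y : α with row y = row x ∧ col x < col y, (X y - X x)

/-- `row`, `col` is a bijection with the cells of a Young diagram, numbered row by row. -/
structure RowR {α : Type} (row col rk : α → ℕ) : Prop where
  inj : ∀ x y, row x = row y → col x = col y → x = y
  down : ∀ x r c, r ≤ row x → c ≤ col x → ∃ y, row y = r ∧ col y = c
  ord : ∀ x y, rk x < rk y ↔ row x < row y ∨ row x = row y ∧ col x < col y

/-- **GAR.** The product of the Vandermonde determinants of the rows is an eigenvector of the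
Jucys-Murphy elements (Lagrange interpolation). -/
def C_GAR : Prop :=
  ∀ (α : Type) [Fintype α] [DecidableEq α] (row col rk : α → ℕ), RowR row col rk → ∀ x,
    JM (pol α) rk x (Dlt row col) = ((col x : ℤ) - row x) • Dlt row col

open Classical in
/-- **POS.** The projection of the row product is not zero. -/
def C_POS : Prop :=
  ∀ (m k : ℕ) (T : Fil m k),
    ∑ a : Perm (Fin m × Bool) with wr a,
      pol (Fin m × Bool) a (Dlt (fun x => T.row x.1) (fun x => 2 * T.dom x.1 + x.2.toNat)) ≠ 0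

/-- **NV0.** Every filling gives a homomorphism. -/
def C_NV0 : Prop :=
  ∀ (m k : ℕ) (T : Fil m k)
    (evs : MvPolynomial (Fin m ⊕ Fin k) ℤ →ₐ[ℤ] Module.End ℤ (Perm (Pt m k) → ℤ)), IsEv evs →
    ∀ f, BiSym f → evs f (v0 ℤ m k) = 0 → aeval (Sum.elim T.x T.y) f = (0 : ℤ)

/-- **NV1.** The component of a filling is not zero. -/
def C_NV1 : Prop :=
  ∀ (p : ℕ) (F : Type) [Field F] [CharP F p] (m k : ℕ) (T : Fil m k), Odd p →
    WW F m k (T.e1 F) (T.e2 F) ≠ ⊥

end Pool.Agent.H74.TF
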