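import Pool.Agent.H74.TF.ALG

/-!
# Project TF, part TRI
-/

set_option autoImplicit false

namespace Pool.Agent.H74.TF

open Finset Equiv MvPolynomial

namespace TriP

variable {m k : ℕ}

/-- The sorting relation. -/
def rr (c c' : Fin m ⊕ Fin k) : Prop := rk (ctr c') ≤ rk (ctr c)

instance : DecidableRel (rr (m := m) (k := k)) := fun _ _ => by
  unfold rr
  infer_instance

instance : Std.Total (rr (m := m) (k := k)) := ⟨fun c c' => le_total _ _⟩

instance : IsTrans (Fin m ⊕ Fin k) (rr (m := m) (k := k)) := ⟨fun _ _ _ h h' => le_trans h' h⟩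

theorem ctr_inj : Function.Injective (ctr (m := m) (k := k)) := by
  rintro (i | r) (j | s) h
  · simp only [ctr, Sum.inl.injEq, Prod.mk.injEq] at h
    rw [h.1]
  · simp [ctr] at h
  · simp [ctr] at h
  · simp only [ctr, Sum.inr.injEq] at h
    rw [h]

/-- The sorted list of a multiset. -/
noncomputable def srt (s : Multiset (Fin m ⊕ Fin k)) : List (Fin m ⊕ Fin k) :=
  s.toList.insertionSort rr

theorem srt_srt (s : Multiset (Fin m ⊕ Fin k)) : Srt (srt s) :=
  List.pairwise_insertionSort rr _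

theorem coe_srt (s : Multiset (Fin m ⊕ Fin k)) : (srt s : Multiset (Fin m ⊕ Fin k)) = s := by
  unfold srt
  rw [Multiset.coe_eq_coe.2 (List.perm_insertionSort rr _), Multiset.coe_toList]

theorem srt_unique {cs cs' : List (Fin m ⊕ Fin k)} (h : Srt cs) (h' : Srt cs')
    (hp : cs.Perm cs') : cs = cs' :=
  List.Perm.eq_of_pairwise (le := rr)
    (fun _ _ _ _ ha hb => ctr_inj (AlgP.rk_inj (le_antisymm hb ha))) h h' hp

theorem srt_coe {cs : List (Fin m ⊕ Fin k)} (h : Srt cs) :
    srt (cs : Multiset (Fin m ⊕ Fin k)) = cs :=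
  srt_unique (srt_srt _) h (Multiset.coe_eq_coe.1 (coe_srt _))

/-- The action of a pair of permutations on multisets. -/
def act (π : Perm (Fin m)) (π' : Perm (Fin k)) (s : Multiset (Fin m ⊕ Fin k)) :
    Multiset (Fin m ⊕ Fin k) := s.map (Sum.map π π')

theorem act_act (π ρ : Perm (Fin m)) (π' ρ' : Perm (Fin k)) (s : Multiset (Fin m ⊕ Fin k)) :
    act π π' (act ρ ρ' s) = act (π * ρ) (π' * ρ') s := by
  unfold act
  rw [Multiset.map_map, Sum.map_comp_map]
  rfl

theorem act_one (s : Multiset (Fin m ⊕ Fin k)) : act 1 1 s = s := by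
  unfold act
  have : (Sum.map (1 : Perm (Fin m)) (1 : Perm (Fin k))) = id := by
    ext x
    rcases x with x | x <;> rfl
  rw [this, Multiset.map_id]

theorem act_inv_act (π : Perm (Fin m)) (π' : Perm (Fin k)) (s : Multiset (Fin m ⊕ Fin k)) :
    act π⁻¹ π'⁻¹ (act π π' s) = s := by
  rw [act_act, inv_mul_cancel, inv_mul_cancel, act_one]

theorem act_act_inv (π : Perm (Fin m)) (π' : Perm (Fin k)) (s : Multiset (Fin m ⊕ Fin k)) :
    act π π' (act π⁻¹ π'⁻¹ s) = s := by
  rw [act_act, mul_inv_cancel, mul_inv_cancel, act_one]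

/-- The weight of a multiset. -/
noncomputable def wm (s : Multiset (Fin m ⊕ Fin k)) : ℕ := wt (srt s)

theorem mem_srt (s : Multiset (Fin m ⊕ Fin k)) (c : Fin m ⊕ Fin k) : c ∈ srt s ↔ c ∈ s := by
  conv_rhs => rw [← coe_srt s]
  rw [Multiset.mem_coe]

theorem length_srt (s : Multiset (Fin m ⊕ Fin k)) : (srt s).length = Multiset.card s := by
  conv_rhs => rw [← coe_srt s]
  rw [Multiset.coe_card]

theorem wm_act (π : Perm (Fin m)) (π' : Perm (Fin k)) (s : Multiset (Fin m ⊕ Fin k)) :
    wm (act π π' s) = wm s := by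
  unfold wm wt
  rw [length_srt, length_srt]
  congr 1
  · unfold act
    rw [Multiset.card_map]
  · have : pc (srt (act π π' s)) = (pc (srt s)).map π.toEmbedding := by
      ext i
      rw [AlgP.mem_pc, mem_map, mem_srt]
      unfold act
      rw [Multiset.mem_map]
      constructor
      · rintro ⟨x, hx, hxi⟩
        rcases x with j | r
        · refine ⟨j, ?_, ?_⟩
          · rw [AlgP.mem_pc, mem_srt]
            exact hx
          · simpa using hxi
        · simp at hxi
      · rintro ⟨j, hj, hji⟩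
        refine ⟨Sum.inl j, ?_, ?_⟩
        · rw [AlgP.mem_pc, mem_srt] at hj
          exact hj
        · simpa using hji
    rw [this, card_map]

theorem card_le_wm (s : Multiset (Fin m ⊕ Fin k)) : Multiset.card s ≤ wm s := by
  unfold wm wt
  rw [length_srt]
  omega

open Classical in
/-- The multisets of weight `S`. -/
noncomputable def MS (m k S : ℕ) : Finset (Multiset (Fin m ⊕ Fin k)) :=
  {s ∈ (S • (univ : Finset (Fin m ⊕ Fin k)).val).powerset.toFinset | wm s = S}

theorem mem_MS (S : ℕ) (s : Multiset (Fin m ⊕ Fin k)) : s ∈ MS m k S ↔ wm s = S := by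
  classical
  unfold MS
  rw [mem_filter, Multiset.mem_toFinset, Multiset.mem_powerset]
  constructor
  · exact fun h => h.2
  · intro h
    refine ⟨?_, h⟩
    rw [Multiset.le_iff_count]
    intro a
    rw [Multiset.count_nsmul, Multiset.count_eq_one_of_mem (univ : Finset (Fin m ⊕ Fin k)).nodup
      (mem_univ a), mul_one, ← h]
    exact (Multiset.count_le_card a s).trans (card_le_wm s)

/-- The polynomial with given coefficients. -/
noncomputable def pl {R : Type} [CommRing R] (O : Finset (Multiset (Fin m ⊕ Fin k)))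
    (c : Multiset (Fin m ⊕ Fin k) → R) : MvPolynomial (Fin m ⊕ Fin k) R :=
  ∑ s ∈ O, C (c s) * (s.map X).prod

theorem pl_biSym {R : Type} [CommRing R] (O : Finset (Multiset (Fin m ⊕ Fin k)))
    (c : Multiset (Fin m ⊕ Fin k) → R) (hO : ∀ π π' s, s ∈ O → act π π' s ∈ O)
    (hc : ∀ π π' s, c (act π π' s) = c s) : BiSym (pl O c) := by
  intro π π'
  unfold pl
  rw [map_sum]
  refine Finset.sum_bij' (fun s _ => act π π' s) (fun s _ => act π⁻¹ π'⁻¹ s)
    (fun s hs => hO _ _ _ hs) (fun s hs => hO _ _ _ hs) (fun s _ => act_inv_act _ _ s)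
    (fun s _ => act_act_inv _ _ s) ?_
  intro s _
  rw [map_mul, rename_C, hc, map_multiset_prod]
  unfold act
  rw [Multiset.map_map, Multiset.map_map]
  congr 2
  apply Multiset.map_congr rfl
  intro x _
  simp

theorem pl_ev (h1 : C_VAL) {R : Type} [CommRing R]
    (evs : MvPolynomial (Fin m ⊕ Fin k) R →ₐ[R] Module.End R (Perm (Pt m k) → R))
    (he : IsEv evs) (O : Finset (Multiset (Fin m ⊕ Fin k)))
    (c : Multiset (Fin m ⊕ Fin k) → R) (g : Perm (Pt m k)) :
    evs (pl O c) (v0 R m k) g = ∑ s ∈ O, c s * val R (srt s) g := by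
  unfold pl
  rw [map_sum, LinearMap.sum_apply, Finset.sum_apply]
  apply sum_congr rfl
  intro s _
  have h2 : (s.map (X : Fin m ⊕ Fin k → MvPolynomial (Fin m ⊕ Fin k) R)).prod =
      ((srt s).map X).prod := by
    conv_lhs => rw [← coe_srt s]
    rw [Multiset.map_coe, Multiset.prod_coe]
  rw [h2, map_mul, Module.End.mul_apply, ← h1 R m k evs he (srt s) g]
  have h3 : (C (c s) : MvPolynomial (Fin m ⊕ Fin k) R) = algebraMap R _ (c s) := rfl
  rw [h3, AlgHom.commutes, Module.algebraMap_end_apply]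
  rfl

theorem sg_sq {k : ℕ} (b : Perm (Fin k)) : sg b * sg b = 1 := by
  unfold sg
  rcases Int.units_eq_one_or (Perm.sign b) with h | h <;> rw [h] <;> rfl

theorem SE_bad {R : Type} [CommRing R] (h2 : ∀ a : R, a + a = 0 → a = 0)
    {ψ : Perm (Pt m k) → R} (hψ : ψ ∈ SE R m k) {g : Perm (Pt m k)} (hg : Bad g) : ψ g = 0 := by
  obtain ⟨a, b, a', b', ha, ha', hh, hs⟩ := hg
  apply h2
  have h3 := (hψ (iot a b * g) a' b' ha').1
  rw [hh, (hψ g a b ha).2, smul_smul] at h3
  have h4 : sg b' * sg b = -1 := by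
    unfold sg
    rw [← Units.val_mul, mul_comm, hs]
    rfl
  rw [h4, neg_smul, one_smul] at h3
  rw [← sub_neg_eq_add, ← h3, sub_self]

theorem SE_coset {R : Type} [CommRing R] {ψ : Perm (Pt m k) → R} (hψ : ψ ∈ SE R m k)
    (g : Perm (Pt m k)) {a a' : Perm (Fin m × Bool)} (b b' : Perm (Fin k)) (ha : wr a)
    (ha' : wr a') : ψ (iot a b * g * iot a' b') = (sg b' * sg b) • ψ g := by
  rw [(hψ _ a' b' ha').1, (hψ g a b ha).2, smul_smul]

/-- The orbit in a set of multisets. -/
def InO (s s' : Multiset (Fin m ⊕ Fin k)) : Prop := ∃ π π', s' = act π π' s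

theorem InO_refl (s : Multiset (Fin m ⊕ Fin k)) : InO s s := ⟨1, 1, (act_one s).symm⟩

theorem InO_act (π : Perm (Fin m)) (π' : Perm (Fin k)) (s : Multiset (Fin m ⊕ Fin k)) :
    InO s (act π π' s) := ⟨π, π', rfl⟩

theorem InO_symm {s s' : Multiset (Fin m ⊕ Fin k)} (h : InO s s') : InO s' s := by
  obtain ⟨π, π', rfl⟩ := h
  exact ⟨π⁻¹, π'⁻¹, (act_inv_act _ _ _).symm⟩

theorem InO_trans {s s' s'' : Multiset (Fin m ⊕ Fin k)} (h : InO s s') (h' : InO s' s'') :
    InO s s'' := by
  obtain ⟨π, π', rfl⟩ := h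
  obtain ⟨ρ, ρ', rfl⟩ := h'
  exact ⟨_, _, act_act _ _ _ _ _⟩

/-- Witness. -/
def Wit (R : Type) [CommRing R] (S : ℕ) (s : Multiset (Fin m ⊕ Fin k)) (g : Perm (Pt m k)) :
    Prop := ¬ Bad g ∧ (NF g).card = S ∧ wm s = S ∧ val R (srt s) g ≠ 0

theorem wit_val (h3 : C_ALG) {R : Type} [CommRing R] {S : ℕ} {s : Multiset (Fin m ⊕ Fin k)}
    {g : Perm (Pt m k)} (hw : Wit R S s g) : (val R (srt s) g = 1 ∨ val R (srt s) g = -1) ∧
      ∀ s' : Multiset (Fin m ⊕ Fin k), wm s' = S → s' ≠ s → val R (srt s') g = 0 := by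
  obtain ⟨hb, hN, hm, hv⟩ := hw
  obtain ⟨cs, hs, hc, h1, hu⟩ := h3 R m k g hb
  have h4 : srt s = cs := by
    by_contra h
    exact hv (hu _ (srt_srt s) (by rw [hN]; exact hm) h)
  rw [h4]
  refine ⟨h1, ?_⟩
  intro s' hm' hne
  apply hu _ (srt_srt s') (by rw [hN]; exact hm')
  intro h5
  apply hne
  rw [← coe_srt s', ← coe_srt s, h4, h5]

theorem wit_eq (h0 : C_VAL) (h1 : C_SYMM) (h3 : C_ALG) (h4 : C_CLS) {R : Type} [CommRing R]
    (evs : MvPolynomial (Fin m ⊕ Fin k) R →ₐ[R] Module.End R (Perm (Pt m k) → R))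
    (h2 : ∀ a : R, a + a = 0 → a = 0) (he : IsEv evs) {ψ : Perm (Pt m k) → R}
    (hψ : ψ ∈ SE R m k) {S : ℕ}
    {s s' : Multiset (Fin m ⊕ Fin k)} {g g' : Perm (Pt m k)} (hw : Wit R S s g)
    (hw' : Wit R S s' g') (hss : InO s s') :
    val R (srt s') g' * ψ g' = val R (srt s) g * ψ g := by
  classical
  obtain ⟨π, π', hππ⟩ := hss
  have hperm : (srt s').Perm ((srt s).map (Sum.map π π')) := by
    rw [← Multiset.coe_eq_coe, ← Multiset.map_coe, coe_srt, coe_srt]
    exact hππ
  obtain ⟨a, b, a', b', ha, ha', hg⟩ := h4 R m k (srt s) (srt s') g g' π π' (srt_srt _)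
    (srt_srt _) (by rw [hw.2.1]; exact hw.2.2.1) (by rw [hw'.2.1]; exact hw'.2.2.1)
    hw.2.2.2 hw'.2.2.2 hperm
  -- the orbit sum
  set O : Finset (Multiset (Fin m ⊕ Fin k)) := {t ∈ MS m k S | InO s t} with hO
  have hmemO : ∀ t, t ∈ O ↔ wm t = S ∧ InO s t := by
    intro t
    rw [hO, mem_filter, mem_MS]
  have hbs : BiSym (pl O (fun _ => (1 : R))) := by
    apply pl_biSym
    · intro ρ ρ' t ht
      rw [hmemO] at ht ⊢
      exact ⟨by rw [wm_act]; exact ht.1, InO_trans ht.2 (InO_act _ _ _)⟩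
    · intro _ _ _
      rfl
  have hSE := h1 R m k evs h2 he _ hbs
  have hval : ∀ (t : Multiset (Fin m ⊕ Fin k)) (x : Perm (Pt m k)), t ∈ O → Wit R S t x →
      evs (pl O (fun _ => (1 : R))) (v0 R m k) x = val R (srt t) x := by
    intro t x ht hx
    rw [pl_ev h0 evs he]
    rw [Finset.sum_eq_single_of_mem t ht]
    · rw [one_mul]
    · intro u hu hut
      rw [(wit_val h3 hx).2 u ((hmemO u).1 hu).1 hut, mul_zero]
  have hv1 := hval s g ((hmemO s).2 ⟨hw.2.2.1, InO_refl s⟩) hw
  have hv2 := hval s' g' ((hmemO s').2 ⟨hw'.2.2.1, ⟨π, π', hππ⟩⟩) hw'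
  have h5 := SE_coset hSE g b b' ha ha'
  have h6 := SE_coset hψ g b b' ha ha'
  rw [← hg] at h5 h6
  rw [hv1, hv2] at h5
  rw [h5, h6, smul_mul_smul_comm]
  have h7 : (sg b' * sg b) * (sg b' * sg b) = 1 := by
    rw [mul_mul_mul_comm, sg_sq, sg_sq, one_mul]
  rw [h7, one_smul]

open Classical in
/-- The coefficients, from a predicate. -/
noncomputable def cfP (R : Type) [CommRing R] (ψ : Perm (Pt m k) → R)
    (P : Multiset (Fin m ⊕ Fin k) × Perm (Pt m k) → Prop) : R :=
  if h : ∃ x, P x then val R (srt h.choose.1) h.choose.2 * ψ h.choose.2 else 0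

/-- The coefficients. -/
noncomputable def cf (R : Type) [CommRing R] (ψ : Perm (Pt m k) → R) (S : ℕ)
    (s : Multiset (Fin m ⊕ Fin k)) : R :=
  cfP R ψ fun x => InO s x.1 ∧ Wit R S x.1 x.2

theorem cf_act (R : Type) [CommRing R] (ψ : Perm (Pt m k) → R) (S : ℕ) (π : Perm (Fin m))
    (π' : Perm (Fin k)) (s : Multiset (Fin m ⊕ Fin k)) :
    cf R ψ S (act π π' s) = cf R ψ S s := by
  have h : ∀ t, InO (act π π' s) t ↔ InO s t := fun t =>
    ⟨fun h => InO_trans (InO_act _ _ _) h, fun h => InO_trans (InO_symm (InO_act _ _ _)) h⟩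
  unfold cf
  congr 1
  ext x
  rw [h]

end TriP

open TriP in
theorem t_TRI (h0 : C_VAL) (h1 : C_SYMM) (h3 : C_ALG) (h4 : C_CLS) (h5 : C_LOW) : C_TRI := by
  classical
  intro R _ m k evs h2 he
  have key : ∀ S : ℕ, ∀ ψ ∈ SE R m k, (∀ g, S ≤ (NF g).card → ψ g = 0) →
      ∃ f, BiSym f ∧ evs f (v0 R m k) = ψ := by
    intro S
    induction S with
    | zero =>
      intro ψ _ h
      refine ⟨0, fun _ _ => map_zero _, ?_⟩
      rw [map_zero, LinearMap.zero_apply]
      ext g
      exact (h g (Nat.zero_le _)).symm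
    | succ S ih =>
      intro ψ hψ h
      have hbs : BiSym (pl (MS m k S) (cf R ψ S)) := by
        apply pl_biSym
        · intro π π' s hs
          rw [mem_MS] at hs ⊢
          rw [wm_act, hs]
        · intro π π' s
          exact cf_act R ψ S π π' s
      have hSE := h1 R m k evs h2 he _ hbs
      have hval : ∀ g, S ≤ (NF g).card →
          evs (pl (MS m k S) (cf R ψ S)) (v0 R m k) g = ψ g := by
        intro g hg
        rcases Nat.eq_or_lt_of_le hg with hg | hg
        · by_cases hb : Bad g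
          · rw [SE_bad h2 hψ hb, SE_bad h2 hSE hb]
          · obtain ⟨cs, hs, hw, hv, hu⟩ := h3 R m k g hb
            rcases subsingleton_or_nontrivial R with hR | hR
            · exact Subsingleton.elim _ _
            have hv0 : val R cs g ≠ 0 := by
              rcases hv with h | h <;> rw [h] <;> simp
            have hwit : Wit R S (cs : Multiset (Fin m ⊕ Fin k)) g := by
              refine ⟨hb, hg.symm, ?_, ?_⟩
              · unfold wm
                rw [srt_coe hs, hw, hg]
              · rw [srt_coe hs]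
                exact hv0
            rw [pl_ev h0 evs he, Finset.sum_eq_single_of_mem (cs : Multiset (Fin m ⊕ Fin k))]
            · have h6 : cf R ψ S (cs : Multiset (Fin m ⊕ Fin k)) = val R cs g * ψ g := by
                unfold cf cfP
                have h7 : ∃ x : Multiset (Fin m ⊕ Fin k) × Perm (Pt m k),
                    InO (cs : Multiset (Fin m ⊕ Fin k)) x.1 ∧ Wit R S x.1 x.2 :=
                  ⟨(_, g), InO_refl _, hwit⟩
                rw [dif_pos h7]
                have h8 := h7.choose_spec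
                have h9 := wit_eq h0 h1 h3 h4 evs h2 he hψ hwit h8.2 h8.1
                rw [srt_coe hs] at h9
                exact h9
              rw [h6, srt_coe hs]
              rcases hv with h | h <;> rw [h] <;> ring
            · rw [mem_MS]
              exact hwit.2.2.1
            · intro u hu' hne
              rw [mem_MS] at hu'
              rw [(wit_val h3 hwit).2 u hu' hne, mul_zero]
        · rw [h g hg, pl_ev h0 evs he]
          apply Finset.sum_eq_zero
          intro s hs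
          rw [mem_MS] at hs
          by_cases h6 : val R (srt s) g = 0
          · rw [h6, mul_zero]
          · exfalso
            have h7 := (h5 R m k (srt s) g h6).1
            have h8 : wt (srt s) = S := hs
            omega
      obtain ⟨f, hf, hf'⟩ := ih (ψ - evs (pl (MS m k S) (cf R ψ S)) (v0 R m k))
        (Submodule.sub_mem _ hψ hSE) (fun g hg => by
          rw [Pi.sub_apply, hval g hg, sub_self])
      refine ⟨f + pl (MS m k S) (cf R ψ S), ?_, ?_⟩
      · intro π π'
        rw [map_add, hf π π', hbs π π']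
      · rw [map_add, LinearMap.add_apply, hf', sub_add_cancel]
  intro ψ hψ
  apply key (Fintype.card (Fin m) + 1) ψ hψ
  intro g hg
  have := card_le_univ (NF g)
  omega

end Pool.Agent.H74.TF
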